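import Pool.Agent.N931.PN.Stm4
import Pool.Agent.N116.EW.Sep

/-!
Project PN (helper931): the exponent `2/3` of the decorrelation.  Statements; nothing is assumed.
-/

set_option autoImplicit false

namespace Pool.Agent.N931.PN

open H974 H12S H389NS H984N H984P H342P Finset
open Pool.Agent.N116.EW
open H342L (cdist Curve)

/-! ## Upper bound -/

/-- PN/NX2: two layers, two arms in the bulk. -/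
def S_NX2 : Prop := ∃ C : ℝ, 0 < C ∧ ∀ D : Dm, D.Ok → ∀ (z : Vtx) (d w : ℕ), 1 ≤ d → d ≤ w →
  (w : ℤ) ≤ D.bd z → ∀ x : ℝ, 0 ≤ x → x < 1 → 1 ≤ (1 - x) * (d : ℝ) ^ (3 / 4 : ℝ) →
    P2 (fun _ => x) D.edges (NX D z d w) (NX D z d w) ≤ C * ((d : ℝ) / w) ^ (1 / 2 : ℝ)

/-- The face is in the rectangle. -/
def inF (D : Dm) (f : Vtx) : Prop := D.l ≤ f.1 ∧ f.1 < D.r ∧ 0 ≤ f.2 ∧ f.2 < D.h

/-- A closed dual crossing of the annulus which is not connected to a face outside of the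
rectangle. -/
def YD (D : Dm) (z : Vtx) (d R : ℕ) (F : Finset Edg) : Prop :=
  ∃ f g : Vtx, sd f z ≤ d + 1 ∧ (R : ℤ) ≤ sd g z ∧ DReach (cE D z d R F) f g ∧
    ∀ f' : Vtx, ¬ inF D f' → ¬ DReach (cE D z d R F) f f'

/-- An open crossing of the annulus which is not connected to a vertex of the boundary. -/
def YO (D : Dm) (z : Vtx) (d R : ℕ) (F : Finset Edg) : Prop :=
  ∃ u w : Vtx, sd u z ≤ d ∧ (R : ℤ) ≤ sd w z ∧ Reach (oE z d R F) u w ∧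
    ∀ v : Vtx, D.bd v ≤ 0 → ¬ Reach (oE z d R F) u v

/-- PN/VF2 -/
def S_VF2 : Prop := ∀ D : Dm, D.Ok → ∀ G B : Finset Edg, G ⊆ D.edges → ∀ (z : Vtx)
  (d R ρ : ℕ), Near1 D z R → 1 ≤ d → d + 4 ≤ R → R + d + 4 ≤ ρ → B ⊆ blk z d →
  (∀ u ∈ wv D, (R : ℤ) + 2 ≤ sd u z) → BadV D ρ (G \ B) G → YD D z d R G

/-- PN/WF2 -/
def S_WF2 : Prop := ∀ D : Dm, D.Ok → ∀ G B : Finset Edg, G ⊆ D.edges → ∀ (z : Vtx)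
  (d R ρ : ℕ), Near1 D z R → 1 ≤ d → d + 4 ≤ R → R + d + 4 ≤ ρ → B ⊆ blk z d →
  (∀ u ∈ wv D, (R : ℤ) + 2 ≤ sd u z) → BadW D ρ (G \ B) G → YD D z d R G

/-- PN/VW2 -/
def S_VW2 : Prop := ∀ D : Dm, D.Ok → ∀ G B : Finset Edg, G ⊆ D.edges → ∀ (z : Vtx)
  (d R ρ : ℕ), Near1 D z R → 1 ≤ d → d + 4 ≤ R → R + d + 4 ≤ ρ → B ⊆ blk z d →
  (∀ f ∈ D.outer, (R : ℤ) + 2 ≤ sd f z) → BadV D ρ (G \ B) G → YO D z d R G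

/-- PN/WW2 -/
def S_WW2 : Prop := ∀ D : Dm, D.Ok → ∀ G B : Finset Edg, G ⊆ D.edges → ∀ (z : Vtx)
  (d R ρ : ℕ), Near1 D z R → 1 ≤ d → d + 4 ≤ R → R + d + 4 ≤ ρ → B ⊆ blk z d →
  (∀ f ∈ D.outer, (R : ℤ) + 2 ≤ sd f z) → BadW D ρ (G \ B) G → YO D z d R G

/-- PN/Y2: two layers, near the boundary. -/
def S_Y2 : Prop := ∀ κ : ℝ, 0 < κ → ∃ C c : ℝ, 0 < C ∧ 0 < c ∧ ∀ (n : ℝ) (D : Dm), 1 ≤ n →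
  D.Shape κ n → ∀ (z : Vtx) (d R : ℕ), inR D.l D.r 0 D.h z → 1 ≤ d → D.bd z ≤ d → d ≤ R →
  (R : ℝ) ≤ c * qd D z → ∀ x : ℝ, 0 ≤ x → x < 1 → 1 ≤ (1 - x) * (d : ℝ) ^ (3 / 4 : ℝ) →
    P2 (fun _ => x) D.edges (YO D z d R) (YO D z d R) ≤ C * ((d : ℝ) / R) ^ (11 / 6 : ℝ) ∧
    P2 (fun _ => x) D.edges (YD D z d R) (YD D z d R) ≤ C * ((d : ℝ) / R) ^ (11 / 6 : ℝ)

/-- PN/CD: one arm from a long excursion. -/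
def S_CD : Prop := ∀ D : Dm, D.Ok → ∀ G B : Finset Edg, G ⊆ D.edges → ∀ (z : Vtx)
  (d R ρ : ℕ), 1 ≤ d → d + 4 ≤ R → R + d + 4 ≤ ρ → B ⊆ blk z d →
  (BadV D ρ (G \ B) G → OAr z d R G) ∧ (BadW D ρ (G \ B) G → DAr D z d R G)

/-- PN/CE1: one arm at a corner. -/
def S_CE1 : Prop := ∀ κ : ℝ, 0 < κ → ∃ C c : ℝ, 0 < C ∧ 0 < c ∧ ∀ (n : ℝ) (D : Dm), 1 ≤ n →
  D.Shape κ n → ∀ i : Fin 6, (i : ℕ) < 4 → ∀ (d R : ℕ), 1 ≤ d → d ≤ R → (R : ℝ) ≤ c * n →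
    Pr hp D.edges (OAr (pts D i) d R) ≤ C * ((d : ℝ) / R) ^ (2 / 3 : ℝ) ∧
    Pr hp D.edges (DAr D (pts D i) d R) ≤ C * ((d : ℝ) / R) ^ (2 / 3 : ℝ)

/-- PN/EV: long excursion of vertices behind a block at an end of the path. -/
def S_EV : Prop := ∀ D : Dm, D.Ok → ∀ G B : Finset Edg, G ⊆ D.edges → ∀ i : Fin 6, 4 ≤ (i : ℕ) →
  ∀ (d R ρ : ℕ), 1 ≤ d → d + 4 ≤ R → R + d + 4 ≤ ρ → B ⊆ blk (pts D i) d →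
  (∀ j : Fin 6, j ≠ i → 2 * (R : ℤ) + 8 ≤ sd (pts D i) (pts D j)) → 2 * (R : ℤ) + 8 ≤ D.h →
  BadV D ρ (G \ B) G → OAr (pts D i) d R G ∧ DAr D (pts D i) d R G

/-- PN/EW: long excursion of faces behind a block at an end of the path. -/
def S_EW : Prop := ∀ D : Dm, D.Ok → ∀ G B : Finset Edg, G ⊆ D.edges → ∀ i : Fin 6, 4 ≤ (i : ℕ) →
  ∀ (d R ρ : ℕ), 1 ≤ d → d + 4 ≤ R → R + d + 4 ≤ ρ → B ⊆ blk (pts D i) d →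
  (∀ j : Fin 6, j ≠ i → 2 * (R : ℤ) + 8 ≤ sd (pts D i) (pts D j)) → 2 * (R : ℤ) + 8 ≤ D.h →
  BadW D ρ (G \ B) G → OAr (pts D i) d R G ∧ DAr D (pts D i) d R G

/-- The corners and ends are far from each other. -/
def FarP (D : Dm) (κ n : ℝ) : Prop := ∀ i j : Fin 6, i ≠ j → κ * n ≤ sd (pts D i) (pts D j)

/-- PN/A1E: one arm at an end of the path. -/
def S_A1E : Prop := ∀ κ : ℝ, 0 < κ → ∃ C c : ℝ, 0 < C ∧ 0 < c ∧ ∀ (n : ℝ) (D : Dm), 1 ≤ n →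
  D.Shape κ n → FarP D κ n → ∀ i : Fin 6, 4 ≤ (i : ℕ) → ∀ (d R : ℕ), 1 ≤ d → d ≤ R →
  (R : ℝ) ≤ c * n →
    Pr hp D.edges (OAr (pts D i) d R) ≤ C * ((d : ℝ) / R) ^ (1 / 3 : ℝ) ∧
    Pr hp D.edges (DAr D (pts D i) d R) ≤ C * ((d : ℝ) / R) ^ (1 / 3 : ℝ)

/-- Distance to the boundary, at least `r`. -/
def d1 (D : Dm) (r : ℕ) (z : Vtx) : ℕ := max r (D.bd z).toNat

/-- Distance to the corners and ends, at least `r`. -/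
def d2 (D : Dm) (r : ℕ) (z : Vtx) : ℕ := max r (qd D z).toNat

/-- PN/CH: two layers, long excursions behind a block, all scales. -/
def S_CH : Prop := ∀ κ : ℝ, 0 < κ → ∃ C : ℝ, 0 < C ∧ ∀ (n : ℝ) (D : Dm), 1 ≤ n →
  D.Shape κ n → FarP D κ n → ∀ (z : Vtx) (B : Finset Edg) (r ρ : ℕ), inR D.l D.r 0 D.h z →
  1 ≤ r → r ≤ ρ → (ρ : ℝ) ≤ n → B ⊆ blk z r → ∀ x : ℝ, 0 ≤ x → x < 1 →
  1 ≤ (1 - x) * (r : ℝ) ^ (3 / 4 : ℝ) →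
    (ρ ≤ d1 D r z → P2 (fun _ => x) D.edges (LG D B ρ) (LG D B ρ) ≤
      C * (((r : ℝ) / ρ) ^ (5 / 2 : ℝ) * ((ρ : ℝ) / d1 D r z) ^ (1 / 2 : ℝ))) ∧
    (d1 D r z ≤ ρ → ρ ≤ d2 D r z → P2 (fun _ => x) D.edges (LG D B ρ) (LG D B ρ) ≤
      C * (((r : ℝ) / d1 D r z) ^ (5 / 2 : ℝ) * ((d1 D r z : ℝ) / ρ) ^ (11 / 6 : ℝ))) ∧
    (d2 D r z ≤ ρ → P2 (fun _ => x) D.edges (LG D B ρ) (LG D B ρ) ≤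
      C * (((r : ℝ) / d1 D r z) ^ (5 / 2 : ℝ) * ((d1 D r z : ℝ) / d2 D r z) ^ (11 / 6 : ℝ) *
        ((d2 D r z : ℝ) / ρ) ^ (2 / 3 : ℝ)))

/-- PN/EX2: two layers, examined blocks. -/
def S_EX2 : Prop := ∃ C : ℝ, 0 < C ∧ ∀ D : Dm, D.Ok → ∀ (z : Vtx) (B : Finset Edg) (r : ℕ),
  inR D.l D.r 0 D.h z → 1 ≤ r → B ⊆ blk z r → ∀ x : ℝ, 0 ≤ x → x < 1 →
  1 ≤ (1 - x) * (r : ℝ) ^ (3 / 4 : ℝ) →
    P2 (fun _ => x) D.edges (EX D B) (EX D B) ≤ C * ((r : ℝ) / d1 D r z) ^ (1 / 2 : ℝ)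

/-- PN/CNT2: cells near the boundary and near the corners and ends. -/
def S_CNT2 : Prop := ∃ C : ℝ, 0 < C ∧ ∀ (D : Dm), D.Ok → ∀ r u v : ℕ, 1 ≤ r → r ≤ u → u ≤ v →
  (((D.edges.filter (fun e => D.bd (src e) ≤ u ∧ qd D (src e) ≤ v)).image (cell r)).card : ℝ) ≤
    C * ((u : ℝ) / r * ((v : ℝ) / r))

/-- PN/BK: one block. -/
def S_BK : Prop := ∀ R : Rect, ∃ C δ0 : ℝ, 0 < C ∧ 0 < δ0 ∧ ∀ δ x : ℝ, 0 < δ → δ ≤ δ0 →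
  0 ≤ x → x < 1 → ∀ f : Curve → ℝ, Lp f → ∀ r : ℕ, 1 ≤ r → δ * r ≤ 1 →
  1 ≤ (1 - x) * (r : ℝ) ^ (3 / 4 : ℝ) → ∀ (z : Vtx) (B : Finset Edg),
  inR (R.dm δ).l (R.dm δ).r 0 (R.dm δ).h z → B ⊆ blk z r →
    E2 (fun _ => x) (R.dm δ).edges (fun F F' => (hf R δ f F - hf R δ f (F \ B)) *
      (hf R δ f F' - hf R δ f (F' \ B))) ≤
      C * (δ ^ 2 * (1 + Real.log (1 / (δ * r))) ^ 2 * (r : ℝ) ^ (5 / 2 : ℝ) *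
          (d1 (R.dm δ) r z : ℝ) ^ (-(1 / 2) : ℝ) +
        δ ^ (2 / 3 : ℝ) * (r : ℝ) ^ (5 / 2 : ℝ) * (d1 (R.dm δ) r z : ℝ) ^ (-(2 / 3) : ℝ) *
          (d2 (R.dm δ) r z : ℝ) ^ (-(7 / 6) : ℝ))

/-- PN/W23: the spectral weight, with the exponent `2/3`. -/
def S_W23 : Prop := ∀ R : Rect, ∃ C δ0 : ℝ, 0 < C ∧ 0 < δ0 ∧ ∀ δ ε : ℝ, 0 < δ → δ ≤ δ0 →
  0 < ε → ε ≤ 1 → 1 ≤ ε * δ ^ (-(3 / 4) : ℝ) → ∀ f : Curve → ℝ, Lp f →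
    WT (R.dm δ).edges (hf R δ f) (1 - ε) ≤ C * ((ε * δ ^ (-(3 / 4) : ℝ)) ^ (-(2 / 3) : ℝ) *
      (1 + Real.log (ε * δ ^ (-(3 / 4) : ℝ))) ^ 2)

/-! ## Lower bound -/

/-- PN/DRV: the spectral weight and the derivatives. -/
def S_DRV : Prop := ∃ c : ℝ, 0 < c ∧ ∀ (S : Finset Edg) (h : Finset Edg → ℝ) (ε : ℝ), 0 < ε →
  ε ≤ 1 / 2 → c * ε * ∑ e ∈ S, E2 (fun _ => 1 - 2 * ε) S (fun F F' => dif e h F * dif e h F') ≤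
    WT S h (1 - ε)

/-- PN/TST: test functions. -/
def S_TST : Prop := ∀ (S B : Finset Edg), B ⊆ S → ∀ (g : Finset Edg → ℝ)
  (k : Finset Edg → Prop), (∀ F, F ⊆ S → (k F ↔ k (F ∩ B))) →
  (∀ F, F ⊆ S → g F ≠ 0 → k F) → ∀ y P b : ℝ, 0 ≤ y → y ≤ 1 → 0 < P → Pr hp S k ≤ P → 0 ≤ b →
  b ≤ Ex hp S g - (1 - y) * ∑ e ∈ B, Ex hp S (fun F => |dif e g F|) →
    b ^ 2 / P ≤ E2 (fun _ => y) S (fun F F' => g F * g F')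

/-- The function of the configuration used for the lower bound: the number of columns in
`(m1, m2]` which are connected to the wired arc, times `δ`. -/
noncomputable def hK (D : Dm) (δ : ℝ) (m1 m2 : ℤ) (F : Finset Edg) : ℝ :=
  δ * ∑ m ∈ Finset.Ioc m1 m2, ind (KM D m F)

/-- PN/FH: the rightmost point of the path. -/
def S_FH : Prop := ∀ (R : Rect) (x1 x2 : ℝ), max R.t 0 < x1 → x1 < x2 → x2 < R.B → x2 ≤ x1 + 1 →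
  ∃ f : Curve → ℝ, Lp f ∧ ∃ δ0 : ℝ, 0 < δ0 ∧ ∀ δ : ℝ, 0 < δ → δ ≤ δ0 → ∀ F : Finset Edg,
    F ⊆ (R.dm δ).edges →
      |hf R δ f F - hK (R.dm δ) δ ⌊x1 / δ⌋ ⌊x2 / δ⌋ F| ≤ 4 * δ

/-- PN/INWB: the inward inequality at the critical point, sum over the block. -/
def S_INWB : Prop := ∀ θ : ℝ, 0 < θ → ∃ (B Mr : ℕ) (Ci : ℝ), 2 ≤ B ∧ 1 ≤ Mr ∧
  0 < Ci ∧ ∀ r : ℕ, Mr ≤ r → ∀ (S : Finset Edg) (I J I' J' : Set Vtx) (p : ℤ × ℤ),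
      blk p (4 * (B * r)) ⊆ S → DomD S I J I' J' → FarS (I ∪ J) p (4 * (B * r)) →
      FarS (I' ∪ J') p (4 * (B * r)) →
      (PQ (1 / 2) S (fun F => BPv I J (blk p (B * r - 1)) ↑F) - θ) * (r:ℝ) ^ (3/4 : ℝ) ≤
        Ci * ∑ e ∈ blk p (B * r), PQ (1 / 2) S (fun F => Pv I J e ↑F)

/-- PN/FST: first moments. -/
def S_FST : Prop := ∀ (R : Rect) (x1 x2 : ℝ), max R.t 0 < x1 → x1 < x2 → x2 < R.B →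
  ∃ c θ δ0 : ℝ, 0 < c ∧ 0 < θ ∧ 0 < δ0 ∧ ∀ δ : ℝ, 0 < δ → δ ≤ δ0 →
    ∃ Q ⊆ (R.dm δ).edges,
      (∀ e ∈ Q, θ / δ ≤ (R.dm δ).bd (src e) ∧ (max R.t 0 + θ) / δ ≤ (src e).1 ∧
        ((src e).1 : ℝ) ≤ (x1 - θ) / δ) ∧
      c * δ ^ (-(3 / 4) : ℝ) ≤ ∑ e ∈ Q, Ex hp (R.dm δ).edges
        (dif e (hK (R.dm δ) δ ⌊x1 / δ⌋ ⌊x2 / δ⌋))

/-- PN/PAR: a pivotal edge has four arms. -/
def S_PAR : Prop := ∀ D : Dm, D.Ok → ∀ m : ℤ, max D.t 0 < m → m ≤ D.r → ∀ F : Finset Edg,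
  F ⊆ D.edges → ∀ e ∈ D.edges, dif e (fun G => ind (KM D m G)) F ≠ 0 → ∀ k : ℕ, 1 ≤ k →
  (k : ℤ) + 4 ≤ D.bd (src e) → (src e).1 + k + 4 ≤ m →
    A4e k e (↑F : Set Edg) ∧ ∀ d : ℕ, 1 ≤ d → d ≤ k → A4a (src e) d k (↑F : Set Edg)

/-- PN/JP: two edges. -/
def S_JP : Prop := ∀ (R : Rect) (x1 x2 θ : ℝ), max R.t 0 < x1 → x1 < x2 → x2 < R.B → 0 < θ →
  ∃ C δ0 : ℝ, 0 < C ∧ 0 < δ0 ∧ ∀ δ : ℝ, 0 < δ → δ ≤ δ0 → ∀ e e' : Edg, e ∈ (R.dm δ).edges →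
    θ / δ ≤ (R.dm δ).bd (src e) → ((src e).1 : ℝ) ≤ (x1 - θ) / δ → e' ≠ e →
    (sd (src e') (src e) : ℝ) ≤ θ / (8 * δ) →
      Ex hp (R.dm δ).edges (fun F => |dif e' (dif e
        (hK (R.dm δ) δ ⌊x1 / δ⌋ ⌊x2 / δ⌋)) F|) ≤
        C * δ ^ (5 / 4 : ℝ) * ((sd (src e') (src e) : ℝ) + 1) ^ (-(5 / 4) : ℝ)

/-- PN/LB: the lower bound. -/
def S_LB : Prop := ∀ R : Rect, ∃ f : Curve → ℝ, Lp f ∧ ∃ c δ0 : ℝ, 0 < c ∧ 0 < δ0 ∧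
  ∀ δ ε : ℝ, 0 < δ → δ ≤ δ0 → 0 < ε → ε ≤ 1 / 2 → 1 ≤ ε * δ ^ (-(3 / 4) : ℝ) →
    c * (ε * δ ^ (-(3 / 4) : ℝ)) ^ (-(2 / 3) : ℝ) ≤ WT (R.dm δ).edges (hf R δ f) (1 - ε)

end Pool.Agent.N931.PN
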