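import Pool.Agent.H389R2.NS.SS
import Pool.Agent.H389R2.NS.Pair1

/-!
Project PN (helper931): statements of the parts about Fourier analysis (nothing is assumed).
-/

set_option autoImplicit false

namespace Pool.Agent.N931.PN

open H974 H12S H389NS Finset

/-! ## Fourier analysis -/

/-- PN/SQ: second moments in two layers. -/
def S_SQ : Prop := ∀ (ρ : Edg → ℝ) (S : Finset Edg), (∀ e ∈ S, 0 ≤ ρ e ∧ ρ e ≤ 1) →
  ∀ (K : ℕ) (a : ℕ → ℝ) (A : ℕ → Finset Edg → Prop) (h : Finset Edg → ℝ), (∀ k, 0 ≤ a k) →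
    (∀ F, F ⊆ S → |h F| ≤ ∑ k ∈ Finset.range (K + 1), a k * ind (A k F)) →
    E2 ρ S (fun F F' => |h F| * |h F'|) ≤
      ((K : ℝ) + 1) * ∑ k ∈ Finset.range (K + 1), (a k) ^ 2 * P2 ρ S (A k) (A k)

/-- PN/BW: spectral weight of the sets which meet `B`. -/
def S_BW : Prop := ∀ (S B : Finset Edg), B ⊆ S → ∀ f : Finset Edg → ℝ,
  ∑ T ∈ S.powerset.filter (fun T => ¬ Disjoint T B), (wal S f T) ^ 2 ≤
    Ex hp S (fun F => (f F - f (F \ B)) ^ 2)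

/-- PN/DER: derivative in the correlation. -/
def S_DER : Prop := ∀ (S N P : Finset Edg), N ⊆ S → P ⊆ S → Disjoint N P →
  ∀ (f : Finset Edg → ℝ) (x : ℝ), 0 ≤ x → x ≤ 1 →
    ∑ T ∈ S.powerset.filter (fun T => Disjoint T P ∧ ¬ Disjoint T N),
        (wal S f T) ^ 2 * x ^ T.card ≤
      ∑ e ∈ N, ∫ y in (0:ℝ)..x,
        E2 (fun e' => if e' ∈ N then y else if e' ∈ P then 0 else 1) S
          (fun F F' => |dif e f F| * |dif e f F'|) / 4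

/-- PN/SS: few blocks (Schramm-Steif). -/
def S_SSB : Prop := ∀ (S L : Finset Edg), L ⊆ S → ∀ (f : Finset Edg → ℝ),
  (∀ F, F ⊆ S → |f F| ≤ 1) → ∀ (β : Edg → ℤ × ℤ) (J : Finset Edg → Finset Edg),
  (∀ Y, Y ⊆ S → J Y ⊆ S) →
  (∀ Y Y', Y ⊆ S → Y' ⊆ S → Y ∩ J Y = Y' ∩ J Y → J Y' = J Y ∧ f Y' = f Y) →
  ∀ δ : ℝ, 0 ≤ δ →
  (∀ e ∈ L, Pr hp S (fun Y => ∃ e' ∈ J Y, β e' = β e) ≤ δ) → ∀ n : ℕ,
    ∑ T ∈ L.powerset.filter (fun T => T.Nonempty ∧ (T.image β).card ≤ n), (wal S f T) ^ 2 ≤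
      (n : ℝ) ^ 2 * δ

/-- PN/MB: many blocks. -/
def S_MB : Prop := ∀ (S L : Finset Edg), L ⊆ S → ∀ (f : Finset Edg → ℝ)
  (β : Edg → ℤ × ℤ) (n : ℕ), 1 ≤ n →
    ∑ T ∈ L.powerset.filter (fun T => n < (T.image β).card), (wal S f T) ^ 2 ≤
      (∑ i ∈ L.image β, Ex hp S (fun F => (f F - f (F \ L.filter (fun e => β e = i))) ^ 2)) / n

end Pool.Agent.N931.PN
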