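import Pool.Agent.N116.EW.Close
import Pool.Agent.H389R2.NS.D0
import Pool.Agent.N931.PN.StmF

/-!
Project PN (helper931): noise sensitivity of the exploration path, with the sharp exponent.
Definitions and statements of the parts (nothing is assumed).
-/

set_option autoImplicit false

namespace Pool.Agent.N931.PN

open H974 H12S H389NS H984N H984P H342P Finset
open Pool.Agent.N116.EW
open H342L (cdist Curve)

/-! ## Definitions -/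

/-- Long excursions between the configuration `G` and the same with the edges of `B` closed. -/
def LG (D : Dm) (B : Finset Edg) (ρ : ℕ) (G : Finset Edg) : Prop :=
  BadV D ρ (G \ B) G ∨ BadW D ρ (G \ B) G

/-- The edges of the rectangle which are examined by the path. -/
noncomputable def JJ (D : Dm) (F : Finset Edg) : Finset Edg :=
  ((Finset.range (D.len F)).image (fun k => ae (D.walk F k))).filter (fun e => e ∈ D.edges)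

/-- `k = 0`: the edge `e` is examined; `k ≥ 1`: the flip of `e` gives an excursion of size
`2 ^ (k + 1)`. -/
def EV (D : Dm) (e : Edg) (k : ℕ) (F : Finset Edg) : Prop :=
  if k = 0 then e ∈ JJ D (F.erase e) else LG D {e} (2 ^ (k + 1) + 1) (insert e F)

/-- The edges of an annulus. -/
noncomputable def AN (z : Vtx) (d R : ℕ) : Finset Edg := blk z R \ blk z d

/-- The open edges of the annulus. -/
def oE (z : Vtx) (d R : ℕ) (F : Finset Edg) : Set Edg := ↑F ∩ ↑(AN z d R)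

/-- The closed edges of the rectangle in the annulus. -/
def cE (D : Dm) (z : Vtx) (d R : ℕ) (F : Finset Edg) : Set Edg :=
  {e | e ∈ D.edges ∧ e ∉ F ∧ e ∈ AN z d R}

/-- Open arm. -/
def OAr (z : Vtx) (d R : ℕ) (F : Finset Edg) : Prop :=
  ∃ u w : Vtx, sd u z ≤ d ∧ (R : ℤ) ≤ sd w z ∧ Reach (oE z d R F) u w

/-- Dual arm. -/
def DAr (D : Dm) (z : Vtx) (d R : ℕ) (F : Finset Edg) : Prop :=
  ∃ f g : Vtx, sd f z ≤ d + 1 ∧ (R : ℤ) ≤ sd g z ∧ DReach (cE D z d R F) f g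

/-- Two open arms in different clusters of the annulus. -/
def OO (z : Vtx) (d R : ℕ) (F : Finset Edg) : Prop :=
  ∃ u w u' w' : Vtx, (sd u z ≤ d ∧ (R : ℤ) ≤ sd w z ∧ Reach (oE z d R F) u w) ∧
    (sd u' z ≤ d ∧ (R : ℤ) ≤ sd w' z ∧ Reach (oE z d R F) u' w') ∧ ¬ Reach (oE z d R F) u u'

/-- Two dual arms in different dual clusters of the annulus. -/
def DD (D : Dm) (z : Vtx) (d R : ℕ) (F : Finset Edg) : Prop :=
  ∃ f g f' g' : Vtx, (sd f z ≤ d + 1 ∧ (R : ℤ) ≤ sd g z ∧ DReach (cE D z d R F) f g) ∧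
    (sd f' z ≤ d + 1 ∧ (R : ℤ) ≤ sd g' z ∧ DReach (cE D z d R F) f' g') ∧
    ¬ DReach (cE D z d R F) f f'

/-- At most one side of the rectangle is close to `z`. -/
def Near1 (D : Dm) (z : Vtx) (R : ℕ) : Prop :=
  inR D.l D.r 0 D.h z ∧
  (((R : ℤ) + 2 ≤ z.1 - D.l ∧ (R : ℤ) + 2 ≤ D.r - z.1 ∧ (R : ℤ) + 2 ≤ D.h - z.2) ∨
   ((R : ℤ) + 2 ≤ z.1 - D.l ∧ (R : ℤ) + 2 ≤ D.r - z.1 ∧ (R : ℤ) + 2 ≤ z.2) ∨
   ((R : ℤ) + 2 ≤ D.r - z.1 ∧ (R : ℤ) + 2 ≤ z.2 ∧ (R : ℤ) + 2 ≤ D.h - z.2) ∨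
   ((R : ℤ) + 2 ≤ z.1 - D.l ∧ (R : ℤ) + 2 ≤ z.2 ∧ (R : ℤ) + 2 ≤ D.h - z.2))

/-- The edges close to the corners and to the ends of the path. -/
noncomputable def Sp (D : Dm) (m : ℕ) : Finset Edg :=
  D.edges.filter (fun e => qd D (src e) < m)

/-- The corners and the ends of the path. -/
def pts (D : Dm) : Fin 6 → Vtx :=
  ![(D.l, 0), (D.r, 0), (D.l, D.h), (D.r, D.h), (D.t, D.h), (0, 0)]

/-! ## The exploration path -/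

/-- PN/STOP: the examined edges determine the path. -/
def S_STOP : Prop := ∀ D : Dm, D.Ok → ∀ F F' : Finset Edg, F ⊆ D.edges → F' ⊆ D.edges →
  F ∩ JJ D F = F' ∩ JJ D F →
    D.len F' = D.len F ∧ ∀ k ≤ D.len F, D.walk F' k = D.walk F k

/-- PN/HX: an examined edge gives arms. -/
def S_HX : Prop := ∀ D : Dm, D.Ok → ∀ F : Finset Edg, F ⊆ D.edges → ∀ (z : Vtx) (d R : ℕ),
  1 ≤ d → (∃ e ∈ JJ D F, e ∈ blk z d) → NX D z d R F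

/-- PN/F4: four arms from a long excursion. -/
def S_F4 : Prop := ∀ D : Dm, D.Ok → ∀ e ∈ D.edges, ∀ F : Finset Edg, F ⊆ D.edges →
  ∀ m ρ : ℕ, 2 ≤ m → (m : ℤ) + 2 ≤ D.bd (src e) → m + 1 ≤ ρ → LG D {e} ρ (insert e F) →
    A4e (m / 2) e (↑F : Set Edg) ∨ A4d (m / 2) e F

/-- PN/F2: two arms from a flip which changes the path. -/
def S_F2 : Prop := ∀ D : Dm, D.Ok → ∀ e ∈ D.edges, ∀ F : Finset Edg, F ⊆ D.edges →
  ∀ k d R : ℕ, 1 ≤ d → EV D e k F → NX D (src e) d R F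

/-- PN/DIF: the effect of a flip on a Lipschitz function of the path. -/
def S_DIF : Prop := ∀ (R : Rect) (δ : ℝ), 0 < δ → (R.dm δ).Ok → ∀ f : Curve → ℝ,
  (∀ γ γ', |f γ - f γ'| ≤ dist γ γ') → (∀ γ, |f γ| ≤ 1) →
  ∀ e ∈ (R.dm δ).edges, ∀ F : Finset Edg, F ⊆ (R.dm δ).edges → ∀ K : ℕ, 1 ≤ K →
    |dif e (fun G => f ⟨R.curve δ G⟩) F| ≤
      ∑ k ∈ Finset.range K, 29 * δ * 2 ^ k * ind (EV (R.dm δ) e k F) +
        2 * ind (EV (R.dm δ) e K F)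

/-- PN/BLK: the effect of closing the edges of `B` on a Lipschitz function of the path. -/
def S_BLK : Prop := ∀ (R : Rect) (δ : ℝ), 0 < δ → (R.dm δ).Ok → ∀ f : Curve → ℝ,
  (∀ γ γ', |f γ - f γ'| ≤ dist γ γ') → (∀ γ, |f γ| ≤ 1) →
  ∀ B : Finset Edg, ∀ F : Finset Edg, F ⊆ (R.dm δ).edges → ∀ ρ K : ℕ, 1 ≤ ρ →
    (f ⟨R.curve δ F⟩ - f ⟨R.curve δ (F \ B)⟩) ^ 2 ≤ (13 * δ * ρ) ^ 2 +
      ∑ k ∈ Finset.range K, (26 * δ * 2 ^ k * ρ) ^ 2 * ind (LG (R.dm δ) B (2 ^ k * ρ) F) +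
        4 * ind (LG (R.dm δ) B (2 ^ K * ρ) F)

/-! ## Two layers and the monotone coupling -/

/-- PN/STAB: the pair `(F, F ∪ F')` for two layers with correlation `1 - ε`. -/
def S_STAB : Prop := ∀ (S : Finset Edg) (ε : ℝ), 0 ≤ ε → ε ≤ 1 →
  ∀ A : Finset Edg → Finset Edg → Prop,
    E2 (fun _ => 1 - ε) S (fun F F' => ind (A F (F ∪ F'))) = PC true (ε / 2) S A ∧
    E2 (fun _ => 1 - ε) S (fun F F' => ind (A F' (F ∪ F'))) = PC true (ε / 2) S A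

/-! ## Bulk -/

/-- PN/BB: two layers, long excursions from an edge in the bulk. -/
def S_BB : Prop := ∃ C : ℝ, 0 < C ∧ ∀ D : Dm, D.Ok → ∀ e ∈ D.edges, ∀ k w : ℕ, 1 ≤ k →
  2 ^ (k + 4) ≤ w → (w : ℤ) ≤ D.bd (src e) → ∀ (ρ : Edg → ℝ) (y : ℝ), 0 ≤ y → y ≤ 1 →
  (∀ e' ∈ D.edges, 0 ≤ ρ e' ∧ ρ e' ≤ 1) → (∀ e' ∈ ebx e (2 ^ k + 2), ρ e' = y) →
    P2 ρ D.edges (EV D e k) (EV D e k) ≤ C * a42 y (2 ^ k) * ((2 ^ k : ℝ) / w) ^ (1 / 4 : ℝ)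

/-- PN/B0: two layers, examined edges in the bulk. -/
def S_B0 : Prop := ∃ C : ℝ, 0 < C ∧ ∀ D : Dm, D.Ok → ∀ e ∈ D.edges, ∀ w : ℕ, 1 ≤ w →
  (w : ℤ) ≤ D.bd (src e) → ∀ (ρ : Edg → ℝ), (∀ e' ∈ D.edges, 0 ≤ ρ e' ∧ ρ e' ≤ 1) →
    P2 ρ D.edges (EV D e 0) (EV D e 0) ≤ C * (w : ℝ) ^ (-(1 / 4) : ℝ)

/-! ## Boundary -/

/-- PN/VF: long excursion of vertices near the free arc. -/
def S_VF : Prop := ∀ D : Dm, D.Ok → ∀ G B : Finset Edg, G ⊆ D.edges → ∀ (z : Vtx)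
  (d R ρ : ℕ), Near1 D z R → 1 ≤ d → d + 4 ≤ R → R + d + 4 ≤ ρ → B ⊆ blk z d →
  (∀ u ∈ wv D, (R : ℤ) + 2 ≤ sd u z) → BadV D ρ (G \ B) G → OO z d R G ∧ DAr D z d R G

/-- PN/WF: long excursion of faces near the free arc. -/
def S_WF : Prop := ∀ D : Dm, D.Ok → ∀ G B : Finset Edg, G ⊆ D.edges → ∀ (z : Vtx)
  (d R ρ : ℕ), Near1 D z R → 1 ≤ d → d + 4 ≤ R → R + d + 4 ≤ ρ → B ⊆ blk z d →
  (∀ u ∈ wv D, (R : ℤ) + 2 ≤ sd u z) → BadW D ρ (G \ B) G → OO z d R G ∧ DAr D z d R G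

/-- PN/VW: long excursion of vertices near the wired arc. -/
def S_VW : Prop := ∀ D : Dm, D.Ok → ∀ G B : Finset Edg, G ⊆ D.edges → ∀ (z : Vtx)
  (d R ρ : ℕ), Near1 D z R → 1 ≤ d → d + 4 ≤ R → R + d + 4 ≤ ρ → B ⊆ blk z d →
  (∀ f ∈ D.outer, (R : ℤ) + 2 ≤ sd f z) → BadV D ρ (G \ B) G → DD D z d R G ∧ OAr z d R G

/-- PN/WW: long excursion of faces near the wired arc. -/
def S_WW : Prop := ∀ D : Dm, D.Ok → ∀ G B : Finset Edg, G ⊆ D.edges → ∀ (z : Vtx)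
  (d R ρ : ℕ), Near1 D z R → 1 ≤ d → d + 4 ≤ R → R + d + 4 ≤ ρ → B ⊆ blk z d →
  (∀ f ∈ D.outer, (R : ℤ) + 2 ≤ sd f z) → BadW D ρ (G \ B) G → DD D z d R G ∧ OAr z d R G

/-- PN/SIDE: geometry. -/
def S_SIDE : Prop := ∀ κ : ℝ, 0 < κ → ∃ c : ℝ, 0 < c ∧ ∀ (n : ℝ) (D : Dm), 1 ≤ n →
  D.Shape κ n → ∀ (z : Vtx) (d R : ℕ), inR D.l D.r 0 D.h z → 1 ≤ d → D.bd z ≤ d → d ≤ R →
  (R : ℝ) ≤ c * qd D z → Near1 D z R ∧
    ((∀ u ∈ wv D, (R : ℤ) + 2 ≤ sd u z) ∨ (∀ f ∈ D.outer, (R : ℤ) + 2 ≤ sd f z))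

/-- PN/A1: one arm near the boundary. -/
def S_A1 : Prop := ∀ κ : ℝ, 0 < κ → ∃ C c : ℝ, 0 < C ∧ 0 < c ∧ ∀ (n : ℝ) (D : Dm), 1 ≤ n →
  D.Shape κ n → ∀ (z : Vtx) (d R : ℕ), inR D.l D.r 0 D.h z → 1 ≤ d → D.bd z ≤ d → d ≤ R →
  (R : ℝ) ≤ c * qd D z →
    Pr (fun _ => (1 / 2 : ℝ)) D.edges (OAr z d R) ≤ C * ((d : ℝ) / R) ^ (1 / 3 : ℝ) ∧
    Pr (fun _ => (1 / 2 : ℝ)) D.edges (DAr D z d R) ≤ C * ((d : ℝ) / R) ^ (1 / 3 : ℝ)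

/-- PN/BKH: three arms (van den Berg-Kesten and Harris). -/
def S_BKH : Prop := ∀ (D : Dm) (z : Vtx) (d R : ℕ),
  Pr (fun _ => (1 / 2 : ℝ)) D.edges (fun F => OO z d R F ∧ DAr D z d R F) ≤
    Pr (fun _ => (1 / 2 : ℝ)) D.edges (OAr z d R) ^ 2 *
      Pr (fun _ => (1 / 2 : ℝ)) D.edges (DAr D z d R) ∧
  Pr (fun _ => (1 / 2 : ℝ)) D.edges (fun F => DD D z d R F ∧ OAr z d R F) ≤
    Pr (fun _ => (1 / 2 : ℝ)) D.edges (DAr D z d R) ^ 2 *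
      Pr (fun _ => (1 / 2 : ℝ)) D.edges (OAr z d R)

/-- PN/SP: the corners and the ends. -/
def S_SP : Prop := ∃ C c : ℝ, 0 < C ∧ 0 < c ∧ ∀ D : Dm, D.Ok → ∀ m ρ : ℕ, 1 ≤ m → m ≤ ρ →
  (∀ i j : Fin 6, i ≠ j → 8 * (ρ : ℤ) ≤ sd (pts D i) (pts D j)) →
    Pr (fun _ => (1 / 2 : ℝ)) D.edges (LG D (Sp D m) ρ) ≤ C * ((m : ℝ) / ρ) ^ c

end Pool.Agent.N931.PN
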