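import Pool.Agent.N931.PN.Stm

/-!
Project PN (helper931): further parts (block version, uniform correlation).  Nothing is assumed.
-/

set_option autoImplicit false

namespace Pool.Agent.N931.PN

open H974 H12S H389NS H984N H984P H342P Finset
open Pool.Agent.N116.EW
open H342L (cdist Curve)

/-- PN/BW2: two-layer spectral weight of the sets which meet `B`. -/
def S_BW2 : Prop := ∀ (S B : Finset Edg), B ⊆ S → ∀ (f : Finset Edg → ℝ) (x : ℝ), 0 ≤ x → x ≤ 1 →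
  ∑ T ∈ S.powerset.filter (fun T => ¬ Disjoint T B), (wal S f T) ^ 2 * x ^ T.card ≤
    E2 (fun _ => x) S (fun F F' => (f F - f (F \ B)) * (f F' - f (F' \ B)))

/-- PN/MK: Minkowski inequality in two layers. -/
def S_MK : Prop := ∀ (ρ : Edg → ℝ) (S : Finset Edg), (∀ e ∈ S, 0 ≤ ρ e ∧ ρ e ≤ 1) →
  ∀ (K : ℕ) (a : ℕ → ℝ) (A : ℕ → Finset Edg → Prop) (h : Finset Edg → ℝ), (∀ k, 0 ≤ a k) →
    (∀ F, F ⊆ S → |h F| ≤ ∑ k ∈ Finset.range (K + 1), a k * ind (A k F)) →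
    E2 ρ S (fun F F' => h F * h F') ≤
      (∑ k ∈ Finset.range (K + 1), a k * Real.sqrt (P2 ρ S (A k) (A k))) ^ 2

/-- An edge of `B` is examined by the path of the configuration with the edges of `B` closed. -/
def EX (D : Dm) (B : Finset Edg) (F : Finset Edg) : Prop := ∃ e ∈ JJ D (F \ B), e ∈ B

/-- Two distinct closed dual clusters cross the annulus. -/
def D4 (z : Vtx) (d R : ℕ) (F : Finset Edg) : Prop :=
  A4a z (d + 2) (R - 2) (↑(dmp (AN z d R \ F)) : Set Edg)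

/-- PN/DIFB: the effect of closing the edges of `B` on a Lipschitz function of the path. -/
def S_DIFB : Prop := ∀ (R : Rect) (δ : ℝ), 0 < δ → (R.dm δ).Ok → ∀ f : Curve → ℝ,
  (∀ γ γ', |f γ - f γ'| ≤ dist γ γ') → (∀ γ, |f γ| ≤ 1) →
  ∀ B : Finset Edg, ∀ F : Finset Edg, F ⊆ (R.dm δ).edges → ∀ ρ K : ℕ, 1 ≤ ρ →
    |f ⟨R.curve δ F⟩ - f ⟨R.curve δ (F \ B)⟩| ≤ 13 * δ * ρ * ind (EX (R.dm δ) B F) +
      ∑ k ∈ Finset.range K, 26 * δ * 2 ^ k * ρ * ind (LG (R.dm δ) B (2 ^ k * ρ) F) +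
        2 * ind (LG (R.dm δ) B (2 ^ K * ρ) F)

/-- PN/LGV: four arms from a long excursion of vertices, in the bulk. -/
def S_LGV : Prop := ∀ D : Dm, D.Ok → ∀ G B : Finset Edg, G ⊆ D.edges → ∀ (z : Vtx)
  (d R ρ : ℕ), 1 ≤ d → d + 8 ≤ R → R + d + 4 ≤ ρ → (R : ℤ) + 4 ≤ D.bd z → B ⊆ blk z d →
  BadV D ρ (G \ B) G → A4a z d R (↑G : Set Edg)

/-- PN/LGW: four arms from a long excursion of faces, in the bulk. -/
def S_LGW : Prop := ∀ D : Dm, D.Ok → ∀ G B : Finset Edg, G ⊆ D.edges → ∀ (z : Vtx)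
  (d R ρ : ℕ), 1 ≤ d → d + 8 ≤ R → R + d + 4 ≤ ρ → (R : ℤ) + 4 ≤ D.bd z → B ⊆ blk z d →
  BadW D ρ (G \ B) G → D4 z d R G

/-- PN/NXB: two arms from a long excursion behind a block. -/
def S_NXB : Prop := ∀ D : Dm, D.Ok → ∀ G B : Finset Edg, G ⊆ D.edges → ∀ (z : Vtx)
  (d R ρ : ℕ), 1 ≤ d → B ⊆ blk z d → LG D B ρ G → NX D z d R G

/-- PN/EXN: two arms from an examined block. -/
def S_EXN : Prop := ∀ D : Dm, D.Ok → ∀ F B : Finset Edg, F ⊆ D.edges → ∀ (z : Vtx)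
  (d R : ℕ), 1 ≤ d → B ⊆ blk z d → EX D B F → NX D z d R F

/-- PN/NXP: two arms in the bulk. -/
def S_NXP : Prop := ∃ C : ℝ, 0 < C ∧ ∀ D : Dm, D.Ok → ∀ (z : Vtx) (d w : ℕ), 1 ≤ d → d ≤ w →
  (w : ℤ) ≤ D.bd z → Pr hp D.edges (NX D z d w) ≤ C * ((d : ℝ) / w) ^ (1 / 4 : ℝ)

/-- PN/P4: two layers, four arms. -/
def S_P4 : Prop := ∃ C : ℝ, 0 < C ∧ ∀ (S : Finset Edg) (z : Vtx) (d R : ℕ), 1 ≤ d → d + 8 ≤ R →
  AN z d R ⊆ S → ∀ x : ℝ, 0 ≤ x → x < 1 → 1 ≤ (1 - x) * (d : ℝ) ^ (3 / 4 : ℝ) →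
    P2 (fun _ => x) S (fun F => A4a z d R (↑F : Set Edg) ∨ D4 z d R F)
      (fun F => A4a z d R (↑F : Set Edg) ∨ D4 z d R F) ≤ C * ((d : ℝ) / R) ^ (5 / 2 : ℝ)

/-- PN/P2B: two layers, long excursions behind a block in the bulk. -/
def S_P2B : Prop := ∃ C : ℝ, 0 < C ∧ ∀ D : Dm, D.Ok → ∀ (B : Finset Edg) (z : Vtx)
  (d R ρ w : ℕ), 1 ≤ d → d + 8 ≤ R → R + d + 4 ≤ ρ → R + 4 ≤ w → (w : ℤ) ≤ D.bd z →
  B ⊆ blk z d → ∀ x : ℝ, 0 ≤ x → x < 1 → 1 ≤ (1 - x) * (d : ℝ) ^ (3 / 4 : ℝ) →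
    P2 (fun _ => x) D.edges (LG D B ρ) (LG D B ρ) ≤
      C * (((d : ℝ) / R) ^ (5 / 2 : ℝ) * ((R : ℝ) / w) ^ (1 / 4 : ℝ))

end Pool.Agent.N931.PN
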