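import Pool.Agent.N931.PN.All1
import Pool.Agent.N787.PN.Cnt
import Pool.Agent.N862.PN.WSP
import Pool.Agent.N459.PN.WFEW
import Pool.Agent.N143.PN.WMany
import Pool.Agent.N31.PN.WBULK
import Pool.Agent.N482.PN.Wall
import Pool.Agent.N861.PN.STB
import Pool.Agent.N572.PN.Var
import Pool.Agent.N187.PN.Cvx
import Pool.Agent.N160.PN.LOW
import Pool.Agent.N348.PN.Int
import Pool.Agent.N273.PN.TGT
import Pool.Agent.N169.PN.PrdMain
import Pool.Agent.N738.PN.P1
import Pool.Agent.N106.PN.P2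
import Pool.Agent.N490.PN.P3
import Pool.Agent.N374.PN.SQA
import Pool.Agent.N887.PN.SQB
import Pool.Agent.N196.EW.Inw
import Pool.Agent.N433.EW.Dom
import Pool.Agent.N216.EW.Mac
import Pool.Agent.N768.EW.Sepp

/-!
Project PN (helper931): assembly.
-/

set_option autoImplicit false

namespace Pool.Agent.N931.PN

open Pool.Agent.N116.EW (S_SEP sep inw)

theorem aCNT : S_CNT := Pool.Agent.N787.PN.Cnt.main
theorem aWSP : S_WSP := Pool.Agent.N862.PN.WSP.main aBW aBLK aSP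
theorem aWFEW : S_WFEW := Pool.Agent.N459.PN.WFEW.main aSSB aSTOP aHX aCNT
theorem aWMANY : S_WMANY := Pool.Agent.N143.PN.WMany.main aMB aBLK aLG3 aCNT
theorem aWBULK : S_WBULK := Pool.Agent.N31.PN.WBULK.main aBW2 aMK aDIFB aP2B aEXN aNXP aCNT
theorem aWALL : S_WALL := Pool.Agent.N482.PN.Wall.main aWSP aWFEW aWMANY aWBULK
theorem aSTB : S_STB := Pool.Agent.N861.PN.STB.main aSTAB
theorem aSEP : S_SEP := sep inw Pool.Agent.N433.EW.dom Pool.Agent.N216.EW.mac
theorem aVAR : S_VAR := Pool.Agent.N572.PN.Var.varOf aSEP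
theorem aCVX : S_CVX := Pool.Agent.N187.PN.Cvx.main
theorem aLOW : S_LOW := Pool.Agent.N160.PN.LOW.main aVAR aWALL aSTB aCOV aCVX
theorem aINT : S_INT := Pool.Agent.N348.PN.Int.main
theorem aTGT : S_TGT := Pool.Agent.N273.PN.TGT.main
theorem aPRD : S_PRD := Pool.Agent.N169.PN.Prd.main
theorem aP1 : S_P1 := Pool.Agent.N738.PN.P1.main aSTB
theorem aP2 : S_P2 := Pool.Agent.N106.PN.P2.main aWALL aCOV aINT
theorem aP3 : S_P3 := Pool.Agent.N490.PN.P3.main aLOW aCOV aINT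
theorem aSQA : S_SQA := Pool.Agent.N374.PN.SQA.main aTGT aP1 aP3 aINT
theorem aSQB : S_SQB := Pool.Agent.N887.PN.SQB.main aTGT aP2 aP3 aPRD aINT

end Pool.Agent.N931.PN
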