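import Pool.Agent.N931.PN.Stm4
import Pool.Agent.N954.PN.VF
import Pool.Agent.N394.PN.WF
import Pool.Agent.N394.PN.LG3
import Pool.Agent.N531.PN.VW
import Pool.Agent.N262.PN.WW
import Pool.Agent.N262.PN.NXP
import Pool.Agent.N40.PN.SP
import Pool.Agent.N340.PN.A1
import Pool.Agent.N692.PN.BKH
import Pool.Agent.N707.PN.Side
import Pool.Agent.N441.PN.SSB
import Pool.Agent.N530.PN.STAB
import Pool.Agent.N866.PN.HX
import Pool.Agent.N401.PN.MB
import Pool.Agent.N56.PN.BLK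
import Pool.Agent.N56.PN.BW
import Pool.Agent.N407.PN.Stop
import Pool.Agent.N645.PN.LGW
import Pool.Agent.N551.PN.P4
import Pool.Agent.N279.PN.P2B
import Pool.Agent.N75.PN.LGV
import Pool.Agent.N558.PN.Difb
import Pool.Agent.N79.PN.NXB
import Pool.Agent.N488.PN.BW2
import Pool.Agent.N488.PN.EXN
import Pool.Agent.N832.PN.MK
import Pool.Agent.N362.PN.Cov

/-!
Project PN (helper931): assembly, first part.
-/

set_option autoImplicit false

namespace Pool.Agent.N931.PN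

theorem aBW : S_BW := Pool.Agent.N56.PN.BW.main
theorem aBW2 : S_BW2 := Pool.Agent.N488.PN.BW2.main
theorem aMK : S_MK := Pool.Agent.N832.PN.MK.main
theorem aMB : S_MB := Pool.Agent.N401.PN.MB.main aBW
theorem aSSB : S_SSB := Pool.Agent.N441.PN.SSB.main
theorem aCOV : S_COV := Pool.Agent.N362.PN.Cov.main
theorem aSTAB : S_STAB := Pool.Agent.N530.PN.STAB.main
theorem aSTOP : S_STOP := Pool.Agent.N407.PN.Stop.main
theorem aHX : S_HX := Pool.Agent.N866.PN.HX.main
theorem aBLK : S_BLK := Pool.Agent.N56.PN.BLK.main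
theorem aDIFB : S_DIFB := Pool.Agent.N558.PN.Difb.main aSTOP
theorem aVF : S_VF := Pool.Agent.N954.PN.VF.main
theorem aWF : S_WF := Pool.Agent.N394.PN.WF.main
theorem aVW : S_VW := Pool.Agent.N531.PN.VW.main
theorem aWW : S_WW := Pool.Agent.N262.PN.WW.main
theorem aSIDE : S_SIDE := Pool.Agent.N707.PN.Side.main
theorem aA1 : S_A1 := Pool.Agent.N340.PN.A1.main
theorem aBKH : S_BKH := Pool.Agent.N692.PN.BKH.main
theorem aSP : S_SP := Pool.Agent.N40.PN.SP.main
theorem aLG3 : S_LG3 := Pool.Agent.N394.PN.LG3.main aSIDE aVF aWF aVW aWW aA1 aBKH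
theorem aLGV : S_LGV := Pool.Agent.N75.PN.LGV.main
theorem aLGW : S_LGW := Pool.Agent.N645.PN.LGW.main
theorem aNXB : S_NXB := Pool.Agent.N79.PN.NXB.main
theorem aNXP : S_NXP := Pool.Agent.N262.PN.NXP.main
theorem aEXN : S_EXN := Pool.Agent.N488.PN.EXN.main aHX
theorem aP4 : S_P4 := Pool.Agent.N551.PN.P4.main
theorem aP2B : S_P2B := Pool.Agent.N279.PN.P2B.main aLGV aLGW aNXB aNXP aP4

end Pool.Agent.N931.PN
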