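import Pool.Agent.N931.PN.All2b
import Pool.Agent.N234.PN.CE1

/-!
Project PN (helper931): assembly of the upgrade (exponent `2/3`).
-/

set_option autoImplicit false

namespace Pool.Agent.N931.PN

theorem aCE1 : S_CE1 := Pool.Agent.N234.PN.CE1.main
theorem aP2T : S_P2S := aP2S aCE1

end Pool.Agent.N931.PN
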