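import Pool.Agent.N931.PN.Stm4

/-!
Project PN (helper931): lower bound for the distance of the two paths.
-/

set_option autoImplicit false

namespace Pool.Agent.N931.PN

open H974 H12S H389NS H984N H984P H342P Finset MeasureTheory Filter Topology
open Pool.Agent.N116.EW
open H342L (cdist Curve)

/-- Lower bound for the probability that the paths are different. -/
def S_P3L : Prop := ∀ R : Rect, ∃ c r0 δ0 : ℝ, 0 < c ∧ 0 < r0 ∧ 0 < δ0 ∧ ∀ δ : ℝ, 0 < δ →
  δ ≤ δ0 → ∀ ε : unitInterval,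
    ENNReal.ofReal (c * min 1 ((ε : ℝ) * δ ^ (-(3 / 4) : ℝ))) ≤
      (law2 R δ ε : Measure (Curve × Curve)) {q | r0 < dist q.1 q.2}

theorem cake {X : Type*} [MeasurableSpace X] (μ : Measure X) (d : X → ℝ)
    (hd : Measurable d) (hd0 : ∀ x, 0 ≤ d x) {A : ℝ} (hA : 0 ≤ A)
    (h : ∀ t : ℝ, 0 < t → μ {x | t < d x} ≤ ENNReal.ofReal (A * t ^ (-(5 / 4) : ℝ))) {r : ℝ}
    (hr : 0 < r) :
    ∫⁻ x, ENNReal.ofReal ((min (d x) r) ^ (2 : ℝ)) ∂μ ≤
      ENNReal.ofReal (3 * A * r ^ (3 / 4 : ℝ)) := by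
  have h1 := lintegral_rpow_eq_lintegral_meas_lt_mul μ (f := fun x => min (d x) r)
    (Filter.Eventually.of_forall fun x => le_min (hd0 x) hr.le)
    ((hd.min measurable_const).aemeasurable) (p := 2) (by norm_num)
  rw [h1]
  have h2 : ∫⁻ t in Set.Ioi (0 : ℝ), μ {a | t < min (d a) r} * ENNReal.ofReal (t ^ ((2 : ℝ) - 1)) ≤
      ∫⁻ t in Set.Ioc (0 : ℝ) r, ENNReal.ofReal (A * t ^ (-(1 / 4) : ℝ)) := by
    rw [← lintegral_indicator measurableSet_Ioi, ← lintegral_indicator measurableSet_Ioc]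
    refine lintegral_mono fun t => ?_
    by_cases ht : 0 < t
    · rw [Set.indicator_of_mem (Set.mem_Ioi.2 ht)]
      by_cases htr : t ≤ r
      · rw [Set.indicator_of_mem (Set.mem_Ioc.2 ⟨ht, htr⟩)]
        have h3 : μ {a | t < min (d a) r} ≤ ENNReal.ofReal (A * t ^ (-(5 / 4) : ℝ)) :=
          le_trans (measure_mono (show {a | t < min (d a) r} ⊆ {a | t < d a} from
            fun a (ha : t < min (d a) r) => show t < d a from
              lt_of_lt_of_le ha (min_le_left _ _))) (h t ht)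
        refine le_trans (mul_le_mul_left h3 _) ?_
        rw [← ENNReal.ofReal_mul (by positivity)]
        refine ENNReal.ofReal_le_ofReal (le_of_eq ?_)
        rw [mul_assoc, ← Real.rpow_add ht]
        norm_num
      · have h4 : {a | t < min (d a) r} = ∅ := by
          ext a
          refine ⟨fun ha => ?_, fun ha => ha.elim⟩
          exact absurd (lt_of_lt_of_le ha (min_le_right _ _)) (not_lt.2 (not_le.1 htr).le)
        rw [h4, measure_empty, zero_mul]
        exact bot_le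
    · rw [Set.indicator_of_notMem (fun h => ht (Set.mem_Ioi.1 h))]
      exact bot_le
  refine le_trans (mul_le_mul_right h2 _) ?_
  have h5 : ∫⁻ t in Set.Ioc (0 : ℝ) r, ENNReal.ofReal (A * t ^ (-(1 / 4) : ℝ)) =
      ENNReal.ofReal (A * (4 / 3 * r ^ (3 / 4 : ℝ))) := by
    rw [← ofReal_integral_eq_lintegral_ofReal]
    · congr 1
      rw [← intervalIntegral.integral_of_le hr.le, intervalIntegral.integral_const_mul,
        integral_rpow (Or.inl (by norm_num))]
      have e1 : (-(1 / 4) + 1 : ℝ) = 3 / 4 := by norm_num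
      rw [e1, Real.zero_rpow (by norm_num)]
      ring
    · exact ((intervalIntegral.intervalIntegrable_rpow' (by norm_num)).1).const_mul A
    · refine (ae_restrict_mem measurableSet_Ioc).mono fun t ht => ?_
      have := ht.1
      exact mul_nonneg hA (Real.rpow_nonneg this.le _)
  rw [h5, ← ENNReal.ofReal_mul (by norm_num)]
  refine ENNReal.ofReal_le_ofReal ?_
  have : 0 ≤ A * r ^ (3 / 4 : ℝ) := by positivity
  nlinarith

theorem p3l : S_P1 → S_P3 → S_P3L := by
  intro h1 h3 R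
  obtain ⟨C, δ1, hC, hδ1, H1⟩ := h1 R
  obtain ⟨f, hf1, hf2, c, C', δ2, hc, -, hδ2, H3⟩ := h3 R
  have hfc : Continuous f := (LipschitzWith.mk_one fun x y => by
    rw [Real.dist_eq]; exact hf1 x y).continuous
  obtain ⟨r0, hr0, hr1, hr2⟩ : ∃ r0 : ℝ, 0 < r0 ∧ r0 ^ 2 ≤ c / 2 ∧
      3 * C * r0 ^ (3 / 4 : ℝ) ≤ c / 2 := by
    have hq : Tendsto (fun r : ℝ => r ^ 2) (𝓝[>] 0) (𝓝 0) := by
      have : Tendsto (fun r : ℝ => r ^ 2) (𝓝 0) (𝓝 (0 ^ 2)) := (continuous_pow 2).tendsto 0
      rw [zero_pow (by norm_num)] at this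
      exact this.mono_left nhdsWithin_le_nhds
    have hp : Tendsto (fun r : ℝ => 3 * C * r ^ (3 / 4 : ℝ)) (𝓝[>] 0) (𝓝 0) := by
      have : Tendsto (fun r : ℝ => 3 * C * r ^ (3 / 4 : ℝ)) (𝓝 0)
          (𝓝 (3 * C * (0 : ℝ) ^ (3 / 4 : ℝ))) :=
        ((Real.continuousAt_rpow_const 0 (3 / 4) (Or.inr (by norm_num))).tendsto).const_mul _
      rw [Real.zero_rpow (by norm_num), mul_zero] at this
      exact this.mono_left nhdsWithin_le_nhds
    have e1 := hq.eventually (Iic_mem_nhds (show (0 : ℝ) < c / 2 by positivity))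
    have e2 := hp.eventually (Iic_mem_nhds (show (0 : ℝ) < c / 2 by positivity))
    have e3 : ∀ᶠ r : ℝ in 𝓝[>] 0, 0 < r := eventually_mem_nhdsWithin
    obtain ⟨r, ha, hb, hd⟩ := (e3.and (e1.and e2)).exists
    exact ⟨r, ha, hb, hd⟩
  refine ⟨c / 8, r0, min δ1 δ2, by positivity, hr0, lt_min hδ1 hδ2, ?_⟩
  intro δ hδ hδ' ε
  have hd1 : δ ≤ δ1 := le_trans hδ' (min_le_left _ _)
  have hd2 : δ ≤ δ2 := le_trans hδ' (min_le_right _ _)
  set L : ℝ := (ε : ℝ) * δ ^ (-(3 / 4) : ℝ) with hL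
  have hL0 : 0 ≤ L := mul_nonneg ε.2.1 (by positivity)
  have k1 := H1 δ hδ hd1 ε
  have k3 := (H3 δ hδ hd2 ε).2
  rw [← hL] at k1 k3
  set μ : Measure (Curve × Curve) := (law2 R δ ε : Measure (Curve × Curve)) with hμ
  have hdm : Measurable (fun q : Curve × Curve => dist q.1 q.2) := continuous_dist.measurable
  set P : ℝ := (μ {q | r0 < dist q.1 q.2}).toReal with hP
  have hPof : μ {q | r0 < dist q.1 q.2} = ENNReal.ofReal P :=
    (ENNReal.ofReal_toReal (measure_ne_top _ _)).symm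
  have hms : MeasurableSet {q : Curve × Curve | r0 < dist q.1 q.2} :=
    measurableSet_lt measurable_const hdm
  -- pointwise
  have hpt : ∀ q : Curve × Curve, (f q.1 - f q.2) ^ 2 ≤
      (min (dist q.1 q.2) r0) ^ 2 + Set.indicator {q | r0 < dist q.1 q.2} (fun _ => (4 : ℝ)) q := by
    intro q
    have a1 := abs_le.1 (hf2 q.1)
    have a2 := abs_le.1 (hf2 q.2)
    by_cases hq : r0 < dist q.1 q.2
    · rw [Set.indicator_of_mem (show q ∈ {q : Curve × Curve | r0 < dist q.1 q.2} from hq)]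
      have : (f q.1 - f q.2) ^ 2 ≤ 4 := by nlinarith
      have h0 := sq_nonneg (min (dist q.1 q.2) r0)
      linarith
    · rw [Set.indicator_of_notMem (show q ∉ {q : Curve × Curve | r0 < dist q.1 q.2} from hq),
        min_eq_left (not_lt.1 hq), add_zero]
      rw [← sq_abs]
      exact pow_le_pow_left₀ (abs_nonneg _) (hf1 _ _) 2
  have hi1 : Integrable (fun q : Curve × Curve => (min (dist q.1 q.2) r0) ^ 2) μ := by
    refine Integrable.of_bound ((hdm.min measurable_const).pow_const 2).aestronglyMeasurable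
      (r0 ^ 2) (Filter.Eventually.of_forall fun q => ?_)
    rw [Real.norm_eq_abs, abs_of_nonneg (sq_nonneg _)]
    exact pow_le_pow_left₀ (le_min dist_nonneg hr0.le) (min_le_right _ _) 2
  have hi2 : Integrable (Set.indicator {q : Curve × Curve | r0 < dist q.1 q.2}
      (fun _ => (4 : ℝ))) μ := (integrable_const (4 : ℝ)).indicator hms
  have hi3 : Integrable (fun q : Curve × Curve => (f q.1 - f q.2) ^ 2) μ := by
    refine Integrable.of_bound (by fun_prop) 4 (Filter.Eventually.of_forall fun q => ?_)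
    have a1 := abs_le.1 (hf2 q.1)
    have a2 := abs_le.1 (hf2 q.2)
    rw [Real.norm_eq_abs, abs_of_nonneg (sq_nonneg _)]
    nlinarith
  have hint : ∫ q, (f q.1 - f q.2) ^ 2 ∂μ ≤
      (∫ q, (min (dist q.1 q.2) r0) ^ 2 ∂μ) + 4 * P := by
    refine le_trans (integral_mono hi3 (hi1.add hi2) hpt) (le_of_eq ?_)
    refine (integral_add hi1 hi2).trans ?_
    rw [integral_indicator hms, setIntegral_const]
    simp only [smul_eq_mul, hP, Measure.real]
    ring
  have hsmall : ∫ q, (min (dist q.1 q.2) r0) ^ 2 ∂μ ≤ c / 2 * min 1 L := by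
    rcases le_total L 1 with hL1 | hL1
    · rw [min_eq_right hL1]
      have hc1 := cake μ (fun q : Curve × Curve => dist q.1 q.2) hdm (fun q => dist_nonneg)
        (A := C * L) (by positivity) (fun t ht => k1 t ht) hr0
      rw [integral_eq_lintegral_of_nonneg_ae (Filter.Eventually.of_forall fun q => sq_nonneg _)
        hi1.aestronglyMeasurable]
      refine ENNReal.toReal_le_of_le_ofReal (by positivity) ?_
      have e0 : ∀ q : Curve × Curve, (min (dist q.1 q.2) r0) ^ 2 =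
        (min (dist q.1 q.2) r0) ^ (2 : ℝ) := fun q => by norm_num
      simp only [e0]
      refine le_trans hc1 (ENNReal.ofReal_le_ofReal ?_)
      calc 3 * (C * L) * r0 ^ (3 / 4 : ℝ) = (3 * C * r0 ^ (3 / 4 : ℝ)) * L := by ring
        _ ≤ c / 2 * L := mul_le_mul_of_nonneg_right hr2 hL0
    · rw [min_eq_left hL1, mul_one]
      calc ∫ q, (min (dist q.1 q.2) r0) ^ 2 ∂μ ≤ ∫ _q, r0 ^ 2 ∂μ :=
            integral_mono hi1 (integrable_const _) fun q =>
              pow_le_pow_left₀ (le_min dist_nonneg hr0.le) (min_le_right _ _) 2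
        _ = r0 ^ 2 := by simp
        _ ≤ c / 2 := hr1
  rw [hPof]
  refine ENNReal.ofReal_le_ofReal ?_
  have := k3.trans (hint.trans (add_le_add hsmall le_rfl))
  linarith

end Pool.Agent.N931.PN
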