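import Pool.Agent.N931.PN.Stm5

/-!
Project PN (helper931): the exponent `2/3`, in terms of the laws.
-/

set_option autoImplicit false

namespace Pool.Agent.N931.PN

open H974 H12S H389NS H984N H984P H342P Finset MeasureTheory Filter Topology
open Pool.Agent.N116.EW
open H342L (cdist Curve)

/-- Sharp decorrelation, in terms of the laws. -/
def S_P2S : Prop := ∀ R : Rect, ∃ C δ0 : ℝ, 0 < C ∧ 0 < δ0 ∧ ∀ δ : ℝ, 0 < δ → δ ≤ δ0 →
  ∀ ε : unitInterval, ∀ f g : Curve → ℝ, (∀ γ γ', |f γ - f γ'| ≤ dist γ γ') →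
    (∀ γ, |f γ| ≤ 1) → (∀ γ γ', |g γ - g γ'| ≤ dist γ γ') → (∀ γ, |g γ| ≤ 1) →
    |(∫ q, f q.1 * g q.2 ∂(law2 R δ ε : Measure (Curve × Curve))) -
      (∫ γ, f γ ∂(law R δ pc : Measure Curve)) * ∫ γ, g γ ∂(law R δ pc : Measure Curve)| ≤
        C * (1 + (ε : ℝ) * δ ^ (-(3 / 4) : ℝ)) ^ (-(2 / 3) : ℝ) *
          (1 + Real.log (1 + (ε : ℝ) * δ ^ (-(3 / 4) : ℝ))) ^ 2

/-- Lower bound, in terms of the laws. -/
def S_P3S : Prop := ∀ R : Rect, ∃ f : Curve → ℝ, (∀ γ γ', |f γ - f γ'| ≤ dist γ γ') ∧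
  (∀ γ, |f γ| ≤ 1) ∧ ∃ c δ0 : ℝ, 0 < c ∧ 0 < δ0 ∧ ∀ δ : ℝ, 0 < δ → δ ≤ δ0 →
  ∀ ε : unitInterval, (ε : ℝ) ≤ 1 / 2 →
    c * (1 + (ε : ℝ) * δ ^ (-(3 / 4) : ℝ)) ^ (-(2 / 3) : ℝ) ≤
      (∫ q, f q.1 * f q.2 ∂(law2 R δ ε : Measure (Curve × Curve))) -
        (∫ γ, f γ ∂(law R δ pc : Measure Curve)) ^ 2

theorem covI (hC : S_COV) (hI : S_INT) (R : Rect) (δ : ℝ) (ε : unitInterval) (f g : Curve → ℝ)
    (hf1 : ∀ γ γ', |f γ - f γ'| ≤ dist γ γ') (hf2 : ∀ γ, |f γ| ≤ 1)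
    (hg1 : ∀ γ γ', |g γ - g γ'| ≤ dist γ γ') (hg2 : ∀ γ, |g γ| ≤ 1) :
    |(∫ q, f q.1 * g q.2 ∂(law2 R δ ε : Measure (Curve × Curve))) -
      (∫ γ, f γ ∂(law R δ pc : Measure Curve)) * ∫ γ, g γ ∂(law R δ pc : Measure Curve)| ≤
        Real.sqrt (WT (R.dm δ).edges (hf R δ f) (1 - (ε : ℝ))) *
          Real.sqrt (WT (R.dm δ).edges (hf R δ g) (1 - (ε : ℝ))) := by
  have hfc : Continuous f := (LipschitzWith.mk_one fun x y => by
    rw [Real.dist_eq]; exact hf1 x y).continuous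
  have hgc : Continuous g := (LipschitzWith.mk_one fun x y => by
    rw [Real.dist_eq]; exact hg1 x y).continuous
  obtain ⟨I1, I2, -, -⟩ := hI R δ ε
  have e1 := I1 (fun q => f q.1 * g q.2) ((hfc.comp continuous_fst).mul (hgc.comp continuous_snd))
    ⟨1, fun q => by
      rw [abs_mul]
      exact mul_le_one₀ (hf2 _) (abs_nonneg _) (hg2 _)⟩
  have e2 := I2 f hfc ⟨1, hf2⟩
  have e3 := I2 g hgc ⟨1, hg2⟩
  rw [e1, e2, e3]
  have h0 : (0 : ℝ) ≤ 1 - (ε : ℝ) := sub_nonneg.2 ε.2.2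
  have h1 : 1 - (ε : ℝ) ≤ 1 := by linarith [ε.2.1]
  exact (hC (R.dm δ).edges (hf R δ f) (hf R δ g) (1 - (ε : ℝ)) h0 h1).1

theorem covE (hC : S_COV) (hI : S_INT) (R : Rect) (δ : ℝ) (ε : unitInterval) (f : Curve → ℝ)
    (hf1 : ∀ γ γ', |f γ - f γ'| ≤ dist γ γ') (hf2 : ∀ γ, |f γ| ≤ 1) :
    (∫ q, f q.1 * f q.2 ∂(law2 R δ ε : Measure (Curve × Curve))) -
      (∫ γ, f γ ∂(law R δ pc : Measure Curve)) ^ 2 =
        WT (R.dm δ).edges (hf R δ f) (1 - (ε : ℝ)) := by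
  have hfc : Continuous f := (LipschitzWith.mk_one fun x y => by
    rw [Real.dist_eq]; exact hf1 x y).continuous
  obtain ⟨I1, I2, -, -⟩ := hI R δ ε
  have e1 := I1 (fun q => f q.1 * f q.2) ((hfc.comp continuous_fst).mul (hfc.comp continuous_snd))
    ⟨1, fun q => by
      rw [abs_mul]
      exact mul_le_one₀ (hf2 _) (abs_nonneg _) (hf2 _)⟩
  have e2 := I2 f hfc ⟨1, hf2⟩
  rw [e1, e2]
  have h0 : (0 : ℝ) ≤ 1 - (ε : ℝ) := sub_nonneg.2 ε.2.2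
  have h1 : 1 - (ε : ℝ) ≤ 1 := by linarith [ε.2.1]
  exact (hC (R.dm δ).edges (hf R δ f) (hf R δ f) (1 - (ε : ℝ)) h0 h1).2.1

theorem wtMono (S : Finset Edg) (h : Finset Edg → ℝ) {x y : ℝ} (hx : 0 ≤ x) (hxy : x ≤ y) :
    WT S h x ≤ WT S h y := by
  refine Finset.sum_le_sum fun T _ => ?_
  exact mul_le_mul_of_nonneg_left (pow_le_pow_left₀ hx hxy _) (sq_nonneg _)

theorem cov2 (hC : S_COV) (hI : S_INT) (R : Rect) (δ : ℝ) (f : Curve → ℝ)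
    (hf1 : ∀ γ γ', |f γ - f γ'| ≤ dist γ γ') (hf2 : ∀ γ, |f γ| ≤ 1) {x : ℝ} (hx0 : 0 ≤ x)
    (hx1 : x ≤ 1) : WT (R.dm δ).edges (hf R δ f) x ≤ 1 := by
  refine le_trans (wtMono _ _ hx0 hx1) ?_
  have h := covE hC hI R δ 0 f hf1 hf2
  have h0 : (1 : ℝ) - ((0 : unitInterval) : ℝ) = 1 := by simp
  rw [h0] at h
  rw [← h]
  have h1 : (∫ q, f q.1 * f q.2 ∂(law2 R δ 0 : Measure (Curve × Curve))) ≤ 1 := by
    have h2 : ‖∫ q, f q.1 * f q.2 ∂(law2 R δ 0 : Measure (Curve × Curve))‖ ≤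
        1 * (law2 R δ 0 : Measure (Curve × Curve)).real Set.univ := by
      refine norm_integral_le_of_norm_le_const (Filter.Eventually.of_forall fun q => ?_)
      rw [Real.norm_eq_abs, abs_mul]
      exact mul_le_one₀ (hf2 _) (abs_nonneg _) (hf2 _)
    rw [Real.norm_eq_abs] at h2
    have h3 : (law2 R δ 0 : Measure (Curve × Curve)).real Set.univ = 1 := by simp
    rw [h3, mul_one] at h2
    exact le_trans (le_abs_self _) h2
  have h4 := sq_nonneg (∫ γ, f γ ∂(law R δ pc : Measure Curve))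
  linarith

theorem aux1 {C L : ℝ} (hC : 0 ≤ C) (hL : 1 ≤ L) :
    C * (L ^ (-(2 / 3) : ℝ) * (1 + Real.log L) ^ 2) ≤
      (2 * C + 2) * (1 + L) ^ (-(2 / 3) : ℝ) * (1 + Real.log (1 + L)) ^ 2 := by
  have h1 : L ^ (-(2 / 3) : ℝ) ≤ 2 * (1 + L) ^ (-(2 / 3) : ℝ) := by
    have h2 : (1 + L) ^ (2 / 3 : ℝ) ≤ 2 * L ^ (2 / 3 : ℝ) := by
      calc (1 + L) ^ (2 / 3 : ℝ) ≤ (2 * L) ^ (2 / 3 : ℝ) :=
            Real.rpow_le_rpow (by linarith) (by linarith) (by norm_num)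
        _ = 2 ^ (2 / 3 : ℝ) * L ^ (2 / 3 : ℝ) := Real.mul_rpow (by norm_num) (by linarith)
        _ ≤ 2 * L ^ (2 / 3 : ℝ) := by
            refine mul_le_mul_of_nonneg_right ?_ (by positivity)
            calc (2 : ℝ) ^ (2 / 3 : ℝ) ≤ 2 ^ (1 : ℝ) :=
                  Real.rpow_le_rpow_of_exponent_le (by norm_num) (by norm_num)
              _ = 2 := Real.rpow_one 2
    rw [Real.rpow_neg (by linarith), Real.rpow_neg (by linarith)]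
    have hp1 : 0 < L ^ (2 / 3 : ℝ) := by positivity
    have hp2 : 0 < (1 + L) ^ (2 / 3 : ℝ) := by positivity
    rw [← div_eq_mul_inv, inv_eq_one_div, div_le_div_iff₀ hp1 hp2]
    linarith
  have h3 : 0 ≤ Real.log L := Real.log_nonneg hL
  have h4 : Real.log L ≤ Real.log (1 + L) := Real.log_le_log (by linarith) (by linarith)
  have h5 : (1 + Real.log L) ^ 2 ≤ (1 + Real.log (1 + L)) ^ 2 :=
    pow_le_pow_left₀ (by linarith) (by linarith) 2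
  have h6 : 0 ≤ (1 + L) ^ (-(2 / 3) : ℝ) := by positivity
  calc C * (L ^ (-(2 / 3) : ℝ) * (1 + Real.log L) ^ 2)
      ≤ C * ((2 * (1 + L) ^ (-(2 / 3) : ℝ)) * (1 + Real.log (1 + L)) ^ 2) := by
        refine mul_le_mul_of_nonneg_left (mul_le_mul h1 h5 (by positivity) (by positivity)) hC
    _ = 2 * C * ((1 + L) ^ (-(2 / 3) : ℝ) * (1 + Real.log (1 + L)) ^ 2) := by ring
    _ ≤ (2 * C + 2) * ((1 + L) ^ (-(2 / 3) : ℝ) * (1 + Real.log (1 + L)) ^ 2) := by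
        refine mul_le_mul_of_nonneg_right (by linarith) (by positivity)
    _ = _ := by ring

theorem aux2 {C L : ℝ} (hC : 0 ≤ C) (hL0 : 0 ≤ L) (hL : L ≤ 1) :
    1 ≤ (2 * C + 2) * (1 + L) ^ (-(2 / 3) : ℝ) * (1 + Real.log (1 + L)) ^ 2 := by
  have h1 : 1 ≤ 2 * (1 + L) ^ (-(2 / 3) : ℝ) := by
    have h2 : (1 + L) ^ (2 / 3 : ℝ) ≤ 2 := by
      calc (1 + L) ^ (2 / 3 : ℝ) ≤ (1 + L) ^ (1 : ℝ) :=
            Real.rpow_le_rpow_of_exponent_le (by linarith) (by norm_num)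
        _ = 1 + L := Real.rpow_one _
        _ ≤ 2 := by linarith
    rw [Real.rpow_neg (by linarith)]
    have hp2 : 0 < (1 + L) ^ (2 / 3 : ℝ) := by positivity
    rw [← div_eq_mul_inv, le_div_iff₀ hp2]
    linarith
  have h3 : 0 ≤ Real.log (1 + L) := Real.log_nonneg (by linarith)
  have h4 : (1 : ℝ) ≤ (1 + Real.log (1 + L)) ^ 2 := by nlinarith
  have h6 : 0 ≤ (1 + L) ^ (-(2 / 3) : ℝ) := by positivity
  have h7 : 1 ≤ (2 * C + 2) * (1 + L) ^ (-(2 / 3) : ℝ) := by nlinarith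
  calc (1 : ℝ) = 1 * 1 := (one_mul 1).symm
    _ ≤ _ := mul_le_mul h7 h4 (by norm_num) (by linarith)

theorem p2s : S_W23 → S_COV → S_INT → S_P2S := by
  intro hW hC hI R
  obtain ⟨C, δ0, hC0, hδ0, H⟩ := hW R
  refine ⟨2 * C + 2, δ0, by linarith, hδ0, ?_⟩
  intro δ hδ hδ' ε f g hf1 hf2 hg1 hg2
  set L : ℝ := (ε : ℝ) * δ ^ (-(3 / 4) : ℝ) with hL
  have hL0 : 0 ≤ L := mul_nonneg ε.2.1 (by positivity)
  have h0 : (0 : ℝ) ≤ 1 - (ε : ℝ) := sub_nonneg.2 ε.2.2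
  have h1 : 1 - (ε : ℝ) ≤ 1 := by linarith [ε.2.1]
  set A : ℝ := (2 * C + 2) * (1 + L) ^ (-(2 / 3) : ℝ) * (1 + Real.log (1 + L)) ^ 2 with hA
  have key : ∀ h : Curve → ℝ, (∀ γ γ', |h γ - h γ'| ≤ dist γ γ') → (∀ γ, |h γ| ≤ 1) →
      WT (R.dm δ).edges (hf R δ h) (1 - (ε : ℝ)) ≤ A := by
    intro h hh1 hh2
    rcases le_total 1 L with hL1 | hL1
    · have hε : 0 < (ε : ℝ) := by
        rcases lt_or_eq_of_le ε.2.1 with hlt | heq
        · exact hlt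
        · exfalso
          rw [hL, ← heq] at hL1
          norm_num at hL1
      exact le_trans (H δ ε hδ hδ' hε ε.2.2 hL1 h ⟨hh1, hh2⟩) (aux1 hC0.le hL1)
    · exact le_trans (cov2 hC hI R δ h hh1 hh2 h0 h1) (aux2 hC0.le hL0 hL1)
  have hA0 : 0 ≤ A := by
    have : 0 ≤ (1 + L) ^ (-(2 / 3) : ℝ) := by positivity
    have h2 : 0 ≤ (1 + Real.log (1 + L)) ^ 2 := sq_nonneg _
    rw [hA]
    exact mul_nonneg (mul_nonneg (by linarith) this) h2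
  refine le_trans (covI hC hI R δ ε f g hf1 hf2 hg1 hg2) ?_
  calc _ ≤ Real.sqrt A * Real.sqrt A :=
        mul_le_mul (Real.sqrt_le_sqrt (key f hf1 hf2)) (Real.sqrt_le_sqrt (key g hg1 hg2))
          (Real.sqrt_nonneg _) (Real.sqrt_nonneg _)
    _ = A := Real.mul_self_sqrt hA0

theorem p3s : S_LB → S_COV → S_INT → S_P3S := by
  intro hW hC hI R
  obtain ⟨f, hfL, c, δ0, hc0, hδ0, H⟩ := hW R
  refine ⟨f, hfL.1, hfL.2, c, min δ0 (1 / 16), hc0, lt_min hδ0 (by norm_num), ?_⟩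
  intro δ hδ hδ' ε hε
  have hδ1 : δ ≤ δ0 := le_trans hδ' (min_le_left _ _)
  have hδ2 : δ ≤ 1 / 16 := le_trans hδ' (min_le_right _ _)
  rw [covE hC hI R δ ε f hfL.1 hfL.2]
  set L : ℝ := (ε : ℝ) * δ ^ (-(3 / 4) : ℝ) with hL
  have hL0 : 0 ≤ L := mul_nonneg ε.2.1 (by positivity)
  rcases le_total 1 L with hL1 | hL1
  · have hε0 : 0 < (ε : ℝ) := by
      rcases lt_or_eq_of_le ε.2.1 with hlt | heq
      · exact hlt
      · exfalso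
        rw [hL, ← heq] at hL1
        norm_num at hL1
    refine le_trans ?_ (H δ ε hδ hδ1 hε0 hε hL1)
    refine mul_le_mul_of_nonneg_left ?_ hc0.le
    exact Real.rpow_le_rpow_of_nonpos (by linarith) (by linarith) (by norm_num)
  · have e1 : 0 < δ ^ (3 / 4 : ℝ) := by positivity
    have e2 : δ ^ (3 / 4 : ℝ) ≤ 1 / 2 := by
      calc δ ^ (3 / 4 : ℝ) ≤ (1 / 16 : ℝ) ^ (3 / 4 : ℝ) :=
            Real.rpow_le_rpow hδ.le hδ2 (by norm_num)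
        _ = 1 / 8 := by
            rw [show (1 / 16 : ℝ) = (1 / 2) ^ (4 : ℝ) by norm_num, ← Real.rpow_mul (by norm_num)]
            norm_num
        _ ≤ 1 / 2 := by norm_num
    have e3 : δ ^ (3 / 4 : ℝ) * δ ^ (-(3 / 4) : ℝ) = 1 := by
      rw [← Real.rpow_add hδ]; norm_num
    have h2 := H δ (δ ^ (3 / 4 : ℝ)) hδ hδ1 e1 e2 (by rw [e3])
    rw [e3, Real.one_rpow, mul_one] at h2
    have h3 : (ε : ℝ) ≤ δ ^ (3 / 4 : ℝ) := by
      have : (ε : ℝ) = L * δ ^ (3 / 4 : ℝ) := by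
        rw [hL, mul_assoc, mul_comm (δ ^ (-(3 / 4) : ℝ)), e3, mul_one]
      rw [this]
      nlinarith
    have h4 : WT (R.dm δ).edges (hf R δ f) (1 - δ ^ (3 / 4 : ℝ)) ≤
        WT (R.dm δ).edges (hf R δ f) (1 - (ε : ℝ)) :=
      wtMono _ _ (by linarith) (by linarith)
    refine le_trans ?_ (le_trans h2 h4)
    have h5 : (1 + L) ^ (-(2 / 3) : ℝ) ≤ 1 :=
      Real.rpow_le_one_of_one_le_of_nonpos (by linarith) (by norm_num)
    nlinarith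

end Pool.Agent.N931.PN
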