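import Pool.Agent.N931.PN.All
import Pool.Agent.N931.PN.P23
import Pool.Agent.N931.PN.LowP
import Pool.Agent.N931.PN.Cnt2
import Pool.Agent.N933.PN.BK
import Pool.Agent.N263.PN.EV
import Pool.Agent.N581.PN.EW
import Pool.Agent.N952.PN.W23
import Pool.Agent.N97.PN.TST
import Pool.Agent.N386.PN.WW2
import Pool.Agent.N588.PN.A1E
import Pool.Agent.N488.PN.PAR
import Pool.Agent.N681.PN.NX2
import Pool.Agent.N348.PN.WF2
import Pool.Agent.N249.PN.VW2
import Pool.Agent.N700.PN.CD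
import Pool.Agent.N596.PN.EX2
import Pool.Agent.N487.PN.Drv
import Pool.Agent.N853.PN.CH
import Pool.Agent.N3.PN.LB
import Pool.Agent.N595.PN.Y2
import Pool.Agent.N368.PN.VF2
import Pool.Agent.N374.PN.INWB
import Pool.Agent.N547.PN.Fst

/-!
Project PN (helper931): assembly of the upgrade (exponent `2/3`), first part.
-/

set_option autoImplicit false

namespace Pool.Agent.N931.PN

theorem aNX2 : S_NX2 := Pool.Agent.N681.PN.NX2.main
theorem aEX2 : S_EX2 := Pool.Agent.N596.PN.EX2.main aEXN aNX2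
theorem aVF2 : S_VF2 := Pool.Agent.N368.PN.VF2.main
theorem aWF2 : S_WF2 := Pool.Agent.N348.PN.WF2.main
theorem aVW2 : S_VW2 := Pool.Agent.N249.PN.VW2.main
theorem aWW2 : S_WW2 := Pool.Agent.N386.PN.WW2.main
theorem aY2 : S_Y2 := Pool.Agent.N595.PN.Y2.main
theorem aCD : S_CD := Pool.Agent.N700.PN.CD.main
theorem aEV : S_EV := Pool.Agent.N263.PN.EV.main
theorem aEW : S_EW := Pool.Agent.N581.PN.EW.main
theorem aA1E : S_A1E := Pool.Agent.N588.PN.A1E.main
theorem aCH (h : S_CE1) : S_CH :=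
  Pool.Agent.N853.PN.CH.main aP4 aLGV aLGW aNXB aNX2 aSIDE aVF2 aWF2 aVW2 aWW2 aY2 aCD h aEV aEW
    aA1E
theorem aCNT2 : S_CNT2 := Cnt2.main
theorem aBK (h : S_CE1) : S_BK := Pool.Agent.N933.PN.BK.main aDIFB aMK (aCH h) aEX2
theorem aW23 (h : S_CE1) : S_W23 := Pool.Agent.N952.PN.W23.main aBW2 (aBK h) aCNT aCNT2
theorem aP2S (h : S_CE1) : S_P2S := p2s (aW23 h) aCOV aINT

theorem aDRV : S_DRV := Pool.Agent.N487.PN.Drv.main
theorem aTST : S_TST := Pool.Agent.N97.PN.TST.main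
theorem aPAR : S_PAR := Pool.Agent.N488.PN.PAR.main
theorem aINWB : S_INWB := Pool.Agent.N374.PN.INWB.main
theorem aFST : S_FST :=
  Pool.Agent.N547.PN.Fst.main aINWB Pool.Agent.N433.EW.dom Pool.Agent.N216.EW.mac
theorem aLB (h1 : S_FH) (h2 : S_JP) : S_LB :=
  Pool.Agent.N3.PN.LB.main h1 aFST aPAR h2 aDRV aTST aCOV
theorem aP3S (h1 : S_FH) (h2 : S_JP) : S_P3S := p3s (aLB h1 h2) aCOV aINT
theorem aP3L : S_P3L := p3l aP1 aP3

end Pool.Agent.N931.PN
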