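import Pool.Agent.N931.PN.All2a
import Pool.Agent.N951.PN.FH
import Pool.Agent.N283.PN.JP
import Pool.Agent.N116.EW.Hit

/-!
Project PN (helper931): assembly of the upgrade (exponent `2/3`), lower bound.
-/

set_option autoImplicit false

namespace Pool.Agent.N931.PN

theorem aFH : S_FH := Pool.Agent.N951.PN.FH.main Pool.Agent.N116.EW.hit
theorem aJP : S_JP := Pool.Agent.N283.PN.JP.main aPAR
theorem aP3T : S_P3S := aP3S aFH aJP

end Pool.Agent.N931.PN
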