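import Pool.Agent.N116.EW.Slut
import Pool.Agent.H389R2.NS.Pair2

/-!
Project PN (helper931): the law of a pair of exploration paths.
-/

set_option autoImplicit false

namespace Pool.Agent.N931.PN

open H974 H12S H389NS H984N H984P MeasureTheory Filter Topology Finset
open Pool.Agent.N116.EW
open H342L (cdist Curve)

/-- The law of the exploration paths of a pair of configurations of critical percolation at mesh
`δ`, the second one obtained from the first one by resampling every edge of the rectangle with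
probability `ε`: the pair `(F, F')` of sets of open edges has probability
`∏_e w_e`, `w_e = (2 - ε) / 4` if `e` is in both or in none of the sets, `w_e = ε / 4` otherwise. -/
noncomputable def law2M (R : Rect) (δ : ℝ) (ε : unitInterval) : Measure (Curve × Curve) := by
  classical exact
  ∑ F ∈ (R.dm δ).edges.powerset, ∑ F' ∈ (R.dm δ).edges.powerset,
    ENNReal.ofReal (∏ e ∈ (R.dm δ).edges,
      if (e ∈ F ↔ e ∈ F') then (2 - (ε : ℝ)) / 4 else (ε : ℝ) / 4) •
      Measure.dirac ((⟨R.curve δ F⟩, ⟨R.curve δ F'⟩) : Curve × Curve)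

theorem law2M_apply (R : Rect) (δ : ℝ) (ε : unitInterval) {G : Set (Curve × Curve)}
    (hG : MeasurableSet G) :
    law2M R δ ε G = ENNReal.ofReal (E2 (fun _ => 1 - (ε : ℝ)) (R.dm δ).edges
      (fun F F' => ind (((⟨R.curve δ F⟩, ⟨R.curve δ F'⟩) : Curve × Curve) ∈ G))) := by
  classical
  have h0 : 0 ≤ (ε : ℝ) := ε.2.1
  have h1 : (ε : ℝ) ≤ 1 := ε.2.2
  have hw : ∀ F F' : Finset Edg, 0 ≤ ∏ e ∈ (R.dm δ).edges,
      (if (e ∈ F ↔ e ∈ F') then (2 - (ε : ℝ)) / 4 else (ε : ℝ) / 4) := by
    intro F F'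
    apply Finset.prod_nonneg
    intro e _
    split_ifs <;> linarith
  have hE : E2 (fun _ => 1 - (ε : ℝ)) (R.dm δ).edges
      (fun F F' => ind (((⟨R.curve δ F⟩, ⟨R.curve δ F'⟩) : Curve × Curve) ∈ G)) =
      ∑ F ∈ (R.dm δ).edges.powerset, ∑ F' ∈ (R.dm δ).edges.powerset,
        (∏ e ∈ (R.dm δ).edges, (if (e ∈ F ↔ e ∈ F') then (2 - (ε : ℝ)) / 4 else (ε : ℝ) / 4)) *
          ind (((⟨R.curve δ F⟩, ⟨R.curve δ F'⟩) : Curve × Curve) ∈ G) := by
    unfold E2
    apply Finset.sum_congr rfl
    intro F _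
    apply Finset.sum_congr rfl
    intro F' _
    congr 1
    apply Finset.prod_congr rfl
    intro e _
    by_cases h : (e ∈ F ↔ e ∈ F')
    · simp only [h]
      norm_num
      ring
    · simp only [h]
      norm_num
  rw [hE, ENNReal.ofReal_sum_of_nonneg (fun F _ => Finset.sum_nonneg fun F' _ =>
    mul_nonneg (hw F F') (ind_nonneg _))]
  unfold law2M
  rw [Measure.finsetSum_apply]
  apply Finset.sum_congr rfl
  intro F _
  rw [Measure.finsetSum_apply, ENNReal.ofReal_sum_of_nonneg (fun F' _ =>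
    mul_nonneg (hw F F') (ind_nonneg _))]
  apply Finset.sum_congr rfl
  intro F' _
  rw [Measure.smul_apply, Measure.dirac_apply' _ hG, smul_eq_mul, ENNReal.ofReal_mul (hw F F')]
  congr 1
  by_cases h : ((⟨R.curve δ F⟩, ⟨R.curve δ F'⟩) : Curve × Curve) ∈ G
  · rw [ind_of h, Set.indicator_of_mem h]; simp
  · rw [ind_not_of h, Set.indicator_of_notMem h]; simp

theorem law2M_univ (R : Rect) (δ : ℝ) (ε : unitInterval) : law2M R δ ε Set.univ = 1 := by
  rw [law2M_apply R δ ε MeasurableSet.univ]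
  have : (fun F F' : Finset Edg =>
      ind (((⟨R.curve δ F⟩, ⟨R.curve δ F'⟩) : Curve × Curve) ∈ (Set.univ : Set (Curve × Curve)))) =
      fun _ _ => (1 : ℝ) := by
    funext F F'
    exact ind_of (Set.mem_univ _)
  rw [this, H389NS.A7.E2_const]
  simp

/-- The law of the pair of exploration paths. -/
noncomputable def law2 (R : Rect) (δ : ℝ) (ε : unitInterval) : ProbabilityMeasure (Curve × Curve) :=
  ⟨law2M R δ ε, ⟨law2M_univ R δ ε⟩⟩

/-- The diagonal map. -/
def dg (γ : Curve) : Curve × Curve := (γ, γ)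

theorem dg_cont : Continuous dg := continuous_id.prodMk continuous_id

end Pool.Agent.N931.PN
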