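import Pool.Agent.N931.PN.Stm2

/-!
Project PN (helper931): the sums over the blocks, and the bound for the spectral weight.
Nothing is assumed.
-/

set_option autoImplicit false

namespace Pool.Agent.N931.PN

open H974 H12S H389NS H984N H984P H342P Finset
open Pool.Agent.N116.EW
open H342L (cdist Curve)

/-! ## Definitions -/

/-- A function of the path. -/
noncomputable def hf (R : Rect) (δ : ℝ) (f : Curve → ℝ) (F : Finset Edg) : ℝ := f ⟨R.curve δ F⟩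

/-- Lipschitz functions bounded by one. -/
def Lp (f : Curve → ℝ) : Prop := (∀ γ γ', |f γ - f γ'| ≤ dist γ γ') ∧ ∀ γ, |f γ| ≤ 1

/-- Spectral weight of the nonempty sets, with correlation `x`. -/
noncomputable def WT (S : Finset Edg) (h : Finset Edg → ℝ) (x : ℝ) : ℝ :=
  ∑ T ∈ S.powerset.filter (fun T => T.Nonempty), (wal S h T) ^ 2 * x ^ T.card

/-- The cell of an edge. -/
def cell (w : ℕ) (e : Edg) : ℤ × ℤ := (e.1 / (w : ℤ), e.2.1 / (w : ℤ))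

/-! ## Fourier analysis -/

/-- PN/COV: covariances. -/
def S_COV : Prop := ∀ (S : Finset Edg) (f g : Finset Edg → ℝ) (x : ℝ), 0 ≤ x → x ≤ 1 →
  |E2 (fun _ => x) S (fun F F' => f F * g F') - Ex hp S f * Ex hp S g| ≤
    Real.sqrt (WT S f x) * Real.sqrt (WT S g x) ∧
  E2 (fun _ => x) S (fun F F' => f F * f F') - (Ex hp S f) ^ 2 = WT S f x ∧
  WT S f 1 = Ex hp S (fun F => (f F) ^ 2) - (Ex hp S f) ^ 2 ∧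
  E2 (fun _ => x) S (fun F F' => (f F - f F') ^ 2) = 2 * (WT S f 1 - WT S f x)

/-- PN/CVX: powers of the correlation. -/
def S_CVX : Prop := ∀ (S : Finset Edg) (f : Finset Edg → ℝ) (x : ℝ) (M : ℕ), 0 ≤ x → x ≤ 1 →
  1 ≤ M → (WT S f x) ^ M ≤ WT S f (x ^ M) * (WT S f 1) ^ (M - 1) ∧
    WT S f 1 - WT S f (x ^ M) ≤ M * (WT S f 1 - WT S f x)

/-! ## Blocks -/

/-- PN/LG3: three arms for a block near the boundary. -/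
def S_LG3 : Prop := ∀ κ : ℝ, 0 < κ → ∃ C c : ℝ, 0 < C ∧ 0 < c ∧ ∀ (n : ℝ) (D : Dm), 1 ≤ n →
  D.Shape κ n → ∀ (z : Vtx) (B : Finset Edg) (d ρ : ℕ), inR D.l D.r 0 D.h z → 1 ≤ d →
  D.bd z ≤ d → B ⊆ blk z d → d ≤ ρ → (ρ : ℝ) ≤ c * qd D z →
    Pr hp D.edges (LG D B ρ) ≤ C * ((d : ℝ) / ρ)

/-- PN/CNT: cells. -/
def S_CNT : Prop := (∀ (w : ℕ), 1 ≤ w → ∀ e e' : Edg, cell w e' = cell w e → e' ∈ blk (src e) w) ∧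
  ∃ C : ℝ, 0 < C ∧ ∀ (n κ : ℝ) (D : Dm), 1 ≤ n → 0 < κ → D.Shape κ n → ∀ w : ℕ, 1 ≤ w →
    (w : ℝ) ≤ n → (((D.edges.image (cell w)).card : ℝ) ≤ C * (n / w) ^ 2) ∧
      ((((D.edges.filter (fun e => D.bd (src e) < w)).image (cell w)).card : ℝ) ≤ C * (n / w))

/-! ## The four parts of the spectral weight -/

/-- PN/WSP: sets which meet the neighbourhoods of the corners and ends. -/
def S_WSP : Prop := ∀ R : Rect, ∃ C c δ0 : ℝ, 0 < C ∧ 0 < c ∧ 0 < δ0 ∧ ∀ δ b : ℝ, 0 < δ → δ ≤ δ0 →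
  0 < b → b ≤ 1 → δ ≤ b ^ 30 → ∀ f : Curve → ℝ, Lp f → ∀ m : ℕ, 1 ≤ m →
  (m : ℝ) ≤ 2 * (b ^ 3 / δ) →
    ∑ T ∈ (R.dm δ).edges.powerset.filter (fun T => ¬ Disjoint T (Sp (R.dm δ) m)),
      (wal (R.dm δ).edges (hf R δ f) T) ^ 2 ≤ C * b ^ c

/-- PN/WFEW: sets of edges near the boundary which meet few cells. -/
def S_WFEW : Prop := ∀ R : Rect, ∃ C δ0 : ℝ, 0 < C ∧ 0 < δ0 ∧ ∀ δ b : ℝ, 0 < δ → δ ≤ δ0 →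
  0 < b → b ≤ 1 → δ ≤ b ^ 30 → ∀ f : Curve → ℝ, Lp f → ∀ m w J : ℕ, 1 ≤ w →
  (w : ℝ) ≤ 2 * (b ^ 30 / δ) → b ^ 3 / δ ≤ m → (J : ℝ) * b ^ 4 ≤ 2 → ∀ L : Finset Edg,
  L ⊆ (R.dm δ).edges → (∀ e ∈ L, (R.dm δ).bd (src e) < w ∧ (m : ℤ) ≤ qd (R.dm δ) (src e)) →
    ∑ T ∈ L.powerset.filter (fun T => T.Nonempty ∧ (T.image (cell w)).card ≤ J),
      (wal (R.dm δ).edges (hf R δ f) T) ^ 2 ≤ C * b

/-- PN/WMANY: sets of edges near the boundary which meet many cells. -/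
def S_WMANY : Prop := ∀ R : Rect, ∃ C δ0 : ℝ, 0 < C ∧ 0 < δ0 ∧ ∀ δ b : ℝ, 0 < δ → δ ≤ δ0 →
  0 < b → b ≤ 1 → δ ≤ b ^ 30 → ∀ f : Curve → ℝ, Lp f → ∀ m w J : ℕ, b ^ 30 / δ ≤ w →
  (w : ℝ) ≤ 2 * (b ^ 30 / δ) → b ^ 3 / δ ≤ m → (m : ℝ) ≤ 2 * (b ^ 3 / δ) → 1 ≤ (J : ℝ) * b ^ 4 →
  ∀ L : Finset Edg, L ⊆ (R.dm δ).edges →
  (∀ e ∈ L, (R.dm δ).bd (src e) < w ∧ (m : ℤ) ≤ qd (R.dm δ) (src e)) →
    ∑ T ∈ L.powerset.filter (fun T => J < (T.image (cell w)).card),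
      (wal (R.dm δ).edges (hf R δ f) T) ^ 2 ≤ C * b

/-- PN/WBULK: sets which meet the bulk, with noise. -/
def S_WBULK : Prop := ∀ R : Rect, ∃ C δ0 : ℝ, 0 < C ∧ 0 < δ0 ∧ ∀ δ b x : ℝ, 0 < δ → δ ≤ δ0 →
  0 < b → b ≤ 1 → δ ≤ b ^ 30 → 0 ≤ x → x < 1 → ∀ f : Curve → ℝ, Lp f → ∀ w r : ℕ,
  b ^ 30 / δ ≤ w → (w : ℝ) ≤ 2 * (b ^ 30 / δ) → 1 ≤ r → 1 ≤ (1 - x) * (r : ℝ) ^ (3 / 4 : ℝ) →
  ∀ N : Finset Edg, N ⊆ (R.dm δ).edges → (∀ e ∈ N, (w : ℤ) ≤ (R.dm δ).bd (src e)) →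
    ∑ T ∈ (R.dm δ).edges.powerset.filter (fun T => ¬ Disjoint T N),
      (wal (R.dm δ).edges (hf R δ f) T) ^ 2 * x ^ T.card ≤
        C * (((r : ℝ) / w) ^ (1 / 4 : ℝ) + (b ^ 60)⁻¹ * ((r : ℝ) / w) ^ (1 / 2 : ℝ))

/-- PN/WALL: the spectral weight. -/
def S_WALL : Prop := ∀ R : Rect, ∃ C c δ0 : ℝ, 0 < C ∧ 0 < c ∧ 0 < δ0 ∧ ∀ δ ε : ℝ, 0 < δ →
  δ ≤ δ0 → 0 < ε → ε ≤ 1 → ∀ f : Curve → ℝ, Lp f →
    WT (R.dm δ).edges (hf R δ f) (1 - ε) ≤ C * (ε * δ ^ (-(3 / 4) : ℝ)) ^ (-c)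

/-! ## Stability -/

/-- PN/STB: the pair of paths is close. -/
def S_STB : Prop := ∀ R : Rect, ∃ C δ0 : ℝ, 0 < C ∧ 0 < δ0 ∧ ∀ δ ε r : ℝ, 0 < δ → δ ≤ δ0 →
  0 ≤ ε → ε ≤ 1 → 0 < r →
    E2 (fun _ => 1 - ε) (R.dm δ).edges
      (fun F F' => ind (r < cdist (R.curve δ F) (R.curve δ F'))) ≤
        C * ((ε * δ ^ (-(3 / 4) : ℝ)) * r ^ (-(5 / 4) : ℝ))

/-! ## Lower bounds -/

/-- PN/VAR: the path is random in the limit. -/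
def S_VAR : Prop := ∀ R : Rect, ∃ f : Curve → ℝ, Lp f ∧ ∃ v δ0 : ℝ, 0 < v ∧ 0 < δ0 ∧ ∀ δ : ℝ,
  0 < δ → δ ≤ δ0 → v ≤ Ex hp (R.dm δ).edges (fun F => (hf R δ f F) ^ 2) -
    (Ex hp (R.dm δ).edges (hf R δ f)) ^ 2

/-- PN/LOW: lower bounds for the covariance and for the distance. -/
def S_LOW : Prop := ∀ R : Rect, ∃ f : Curve → ℝ, Lp f ∧ ∃ c C δ0 : ℝ, 0 < c ∧ 0 < C ∧ 0 < δ0 ∧
  ∀ δ ε : ℝ, 0 < δ → δ ≤ δ0 → 0 ≤ ε → ε ≤ 1 →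
    (ε ≤ 1 / 2 → c * Real.exp (-(C * (ε * δ ^ (-(3 / 4) : ℝ)))) ≤
      WT (R.dm δ).edges (hf R δ f) (1 - ε)) ∧
    c * min 1 (ε * δ ^ (-(3 / 4) : ℝ)) ≤
      E2 (fun _ => 1 - ε) (R.dm δ).edges (fun F F' => (hf R δ f F - hf R δ f F') ^ 2)

end Pool.Agent.N931.PN
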