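import Pool.Agent.N931.PN.Stm3
import Pool.Agent.N931.PN.Law2

/-!
Project PN (helper931): laws of the pair of paths and their limits.  Nothing is assumed.
-/

set_option autoImplicit false

namespace Pool.Agent.N931.PN

open H974 H12S H389NS H984N H984P H342P Finset MeasureTheory Filter Topology
open Pool.Agent.N116.EW
open H342L (cdist Curve)

/-- PN/INT: integrals. -/
def S_INT : Prop := ∀ (R : Rect) (δ : ℝ) (ε : unitInterval),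
  (∀ Φ : Curve × Curve → ℝ, Continuous Φ → (∃ M : ℝ, ∀ q, |Φ q| ≤ M) →
    ∫ q, Φ q ∂(law2 R δ ε : Measure (Curve × Curve)) =
      E2 (fun _ => 1 - (ε : ℝ)) (R.dm δ).edges
        (fun F F' => Φ (⟨R.curve δ F⟩, ⟨R.curve δ F'⟩))) ∧
  (∀ f : Curve → ℝ, Continuous f → (∃ M : ℝ, ∀ γ, |f γ| ≤ M) →
    ∫ γ, f γ ∂(law R δ pc : Measure Curve) = Ex hp (R.dm δ).edges (hf R δ f)) ∧
  (law2 R δ ε : Measure (Curve × Curve)).map Prod.fst = law R δ pc ∧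
  (law2 R δ ε : Measure (Curve × Curve)).map Prod.snd = law R δ pc

/-- PN/PRD: weak convergence to a product measure. -/
def S_PRD : Prop := ∀ (X : Type) [PseudoMetricSpace X] [SecondCountableTopology X]
  [MeasurableSpace X] [BorelSpace X] (P : ℕ → ProbabilityMeasure (X × X))
  (μ ν : ProbabilityMeasure X),
  (∀ f g : X → ℝ, (∀ x y, |f x - f y| ≤ dist x y) → (∀ x, |f x| ≤ 1) →
    (∀ x y, |g x - g y| ≤ dist x y) → (∀ x, |g x| ≤ 1) →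
    Tendsto (fun i => ∫ q, f q.1 * g q.2 ∂(P i : Measure (X × X))) atTop
      (𝓝 ((∫ x, f x ∂(μ : Measure X)) * ∫ x, g x ∂(ν : Measure X)))) →
  Tendsto P atTop (𝓝 (μ.prod ν))

/-- PN/TGT: tightness. -/
def S_TGT : Prop := ∀ (R : Rect) (δ : ℕ → ℝ), (∀ i, 0 < δ i) → Tendsto δ atTop (𝓝 0) →
  ∃ φ : ℕ → ℕ, StrictMono φ ∧ ∃ μ : ProbabilityMeasure Curve,
    Tendsto (fun i => law R (δ (φ i)) pc) atTop (𝓝 μ)

/-- PN/P1: the paths are close. -/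
def S_P1 : Prop := ∀ R : Rect, ∃ C δ0 : ℝ, 0 < C ∧ 0 < δ0 ∧ ∀ δ : ℝ, 0 < δ → δ ≤ δ0 →
  ∀ (ε : unitInterval) (r : ℝ), 0 < r →
    (law2 R δ ε : Measure (Curve × Curve)) {q | r < dist q.1 q.2} ≤
      ENNReal.ofReal (C * ((ε : ℝ) * δ ^ (-(3 / 4) : ℝ)) * r ^ (-(5 / 4) : ℝ))

/-- PN/P2: the paths are nearly independent. -/
def S_P2 : Prop := ∀ R : Rect, ∃ C c δ0 : ℝ, 0 < C ∧ 0 < c ∧ 0 < δ0 ∧ ∀ δ : ℝ, 0 < δ → δ ≤ δ0 →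
  ∀ ε : unitInterval, 0 < (ε : ℝ) → ∀ f g : Curve → ℝ, (∀ γ γ', |f γ - f γ'| ≤ dist γ γ') →
    (∀ γ, |f γ| ≤ 1) → (∀ γ γ', |g γ - g γ'| ≤ dist γ γ') → (∀ γ, |g γ| ≤ 1) →
    |(∫ q, f q.1 * g q.2 ∂(law2 R δ ε : Measure (Curve × Curve))) -
      (∫ γ, f γ ∂(law R δ pc : Measure Curve)) * ∫ γ, g γ ∂(law R δ pc : Measure Curve)| ≤
        C * ((ε : ℝ) * δ ^ (-(3 / 4) : ℝ)) ^ (-c)

/-- PN/P3: lower bounds. -/
def S_P3 : Prop := ∀ R : Rect, ∃ f : Curve → ℝ, (∀ γ γ', |f γ - f γ'| ≤ dist γ γ') ∧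
  (∀ γ, |f γ| ≤ 1) ∧ ∃ c C δ0 : ℝ, 0 < c ∧ 0 < C ∧ 0 < δ0 ∧ ∀ δ : ℝ, 0 < δ → δ ≤ δ0 →
  ∀ ε : unitInterval,
    ((ε : ℝ) ≤ 1 / 2 → c * Real.exp (-(C * ((ε : ℝ) * δ ^ (-(3 / 4) : ℝ)))) ≤
      (∫ q, f q.1 * f q.2 ∂(law2 R δ ε : Measure (Curve × Curve))) -
        (∫ γ, f γ ∂(law R δ pc : Measure Curve)) ^ 2) ∧
    c * min 1 ((ε : ℝ) * δ ^ (-(3 / 4) : ℝ)) ≤
      ∫ q, (f q.1 - f q.2) ^ 2 ∂(law2 R δ ε : Measure (Curve × Curve))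

/-- PN/SQA: the paths have the same limit. -/
def S_SQA : Prop := ∀ (R : Rect) (δ : ℕ → ℝ) (ε : ℕ → unitInterval), (∀ i, 0 < δ i) →
  Tendsto δ atTop (𝓝 0) →
  (Tendsto (fun i => (ε i : ℝ) * (δ i) ^ (-(3 / 4) : ℝ)) atTop (𝓝 0) ↔
    ∀ φ : ℕ → ℕ, StrictMono φ → ∀ μ : ProbabilityMeasure Curve,
      Tendsto (fun i => law R (δ (φ i)) pc) atTop (𝓝 μ) →
        Tendsto (fun i => law2 R (δ (φ i)) (ε (φ i))) atTop
          (𝓝 (μ.map (dg_cont.measurable.aemeasurable))))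

/-- PN/SQB: the paths have independent limits. -/
def S_SQB : Prop := ∀ (R : Rect) (δ : ℕ → ℝ) (ε : ℕ → unitInterval), (∀ i, 0 < δ i) →
  Tendsto δ atTop (𝓝 0) →
  (Tendsto (fun i => (ε i : ℝ) * (δ i) ^ (-(3 / 4) : ℝ)) atTop atTop ↔
    ∀ φ : ℕ → ℕ, StrictMono φ → ∀ μ : ProbabilityMeasure Curve,
      Tendsto (fun i => law R (δ (φ i)) pc) atTop (𝓝 μ) →
        Tendsto (fun i => law2 R (δ (φ i)) (ε (φ i))) atTop (𝓝 (μ.prod μ)))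

end Pool.Agent.N931.PN
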